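import Pool.Agent.H11.ZDE.XY
import Pool.Agent.H80.ZDE.F2
import Pool.Agent.H68.ZDE.D
import Pool.Agent.H13.ZDE.C
import Pool.Agent.H20.ZDE.DESC
import Pool.Agent.H7.ZDE.Main
import Pool.Agent.H42.ZDE.LAT
import Pool.Agent.H94.ZDE.PD
import Pool.Agent.H22.ZDE.REP
import Pool.Agent.H58.ZDE.GR
import Pool.Agent.H53.ZDE.K
import Pool.Agent.H31.ZDE.LEM
import Pool.Agent.H13.ZDE.FIN

/-!
# Assembly of the abstract part
-/

namespace Pool.Agent.H11.ZDE

theorem main_all {L : Type*} [AddCommGroup L] {R : RootLat L} (S : Sys R) : MainStmt S := by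
  have hXY := S.xy_stmt
  have hF2 := S.f2_stmt
  have hD := S.d_stmt hXY hF2
  have hC := S.c_stmt hXY hF2 hD
  exact MainMod.main_stmt (S := S) hXY hF2 (desc_stmt S hXY hD hC)

end Pool.Agent.H11.ZDE
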