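import Mathlib

/-!
# Official definitions for MP_92a1a0_co (Delanoy's descent conjecture for zircons)

Bruhat order, covers, special matchings and zircons for a Coxeter system of Mathlib, and the Coxeter matrices
of type `A_n`, `D_n`, `E_6`, `E_7`, `E_8`.
-/

namespace Pool.Agent.H11.ZDE

variable {B : Type*} {M : CoxeterMatrix B} {W : Type*} [Group W] (cs : CoxeterSystem M W)

/-- Bruhat order: the reflexive transitive closure of `a < a t`, `t` a reflection, `ℓ a < ℓ (a t)`. -/
def Bru (u w : W) : Prop :=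
  Relation.ReflTransGen (fun a b => ∃ t, cs.IsReflection t ∧ b = a * t ∧ cs.length a < cs.length b) u w

/-- `x` is covered by `y` in Bruhat order. -/
def Cov (x y : W) : Prop :=
  Bru cs x y ∧ x ≠ y ∧ ∀ z, Bru cs x z → Bru cs z y → z = x ∨ z = y

/-- membership in the Bruhat interval `[u, v]` -/
def Ic (u v x : W) : Prop := Bru cs u x ∧ Bru cs x v

/-- `m` is a special matching of the Bruhat interval `[u, v]`. -/
structure SM (u v : W) (m : W → W) : Prop where
  maps : ∀ x, Ic cs u v x → Ic cs u v (m x)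
  invol : ∀ x, Ic cs u v x → m (m x) = x
  cov : ∀ x, Ic cs u v x → Cov cs x (m x) ∨ Cov cs (m x) x
  special : ∀ x y, Ic cs u v x → Ic cs u v y → Cov cs x y → m x ≠ y → Bru cs (m x) (m y) ∧ m x ≠ m y

/-- `[u, w]` is a zircon: `[u, v]` has a special matching for every `u < v ≤ w`. -/
def Zircon (u w : W) : Prop := ∀ v, Bru cs u v → u ≠ v → Bru cs v w → ∃ m, SM cs u v m

/-- The Coxeter matrix of type `D_n`, with nodes `0, …, n-1` and edges `0 - 2`, `1 - 2`, `2 - 3`, `3 - 4`, …
(so the branch node is `2`).  (`CoxeterMatrix.D` of Mathlib has one edge too many.) -/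
def matD (n : ℕ) : CoxeterMatrix (Fin n) where
  M := Matrix.of fun i j : Fin n ↦
    if i = j then 1
      else if ((i : ℕ) = 0 ∧ (j : ℕ) = 2) ∨ ((j : ℕ) = 0 ∧ (i : ℕ) = 2) ∨
        (1 ≤ (i : ℕ) ∧ (i : ℕ) + 1 = j) ∨ (1 ≤ (j : ℕ) ∧ (j : ℕ) + 1 = i) then 3 else 2
  isSymm := by
    unfold Matrix.IsSymm
    ext i j
    simp only [Matrix.transpose_apply, Matrix.of_apply]
    by_cases h : i = j
    · simp [h]
    · rw [if_neg h, if_neg (Ne.symm h)]
      congr 1
      apply propext
      tauto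
  diagonal := by simp
  off_diagonal := by
    intro i j h
    simp only [Matrix.of_apply, if_neg h]
    split_ifs <;> decide

/-- `M` is, up to a relabelling of the generators, the Coxeter matrix of type
`A_n` (`n ≥ 1`), `D_n` (`n ≥ 4`), `E_6`, `E_7` or `E_8`. -/
def IsADE (M : CoxeterMatrix B) : Prop :=
  (∃ n, 1 ≤ n ∧ ∃ e : B ≃ Fin n, M.reindex e = CoxeterMatrix.A n) ∨
  (∃ n, 4 ≤ n ∧ ∃ e : B ≃ Fin n, M.reindex e = matD n) ∨
  (∃ e : B ≃ Fin 6, M.reindex e = CoxeterMatrix.E₆) ∨
  (∃ e : B ≃ Fin 7, M.reindex e = CoxeterMatrix.E₇) ∨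
  (∃ e : B ≃ Fin 8, M.reindex e = CoxeterMatrix.E₈)

/-- The statement: every zircon `[u, w]`, `u < w`, has a left descent `s` of `w` with `s w ≱ u` or `s u > u`. -/
def Descent : Prop :=
  ∀ u w : W, Bru cs u w → u ≠ w → Zircon cs u w →
    ∃ i : B, cs.length (cs.simple i * w) < cs.length w ∧
      (¬ Bru cs u (cs.simple i * w) ∨ cs.length u < cs.length (cs.simple i * u))

end Pool.Agent.H11.ZDE
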