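import Pool.Agent.H11.ZDE.Lat
import Pool.Agent.H11.ZDE.Defs

/-!
# Statements of the modules of project ZDE (MP_92a1a0_co, types A, D, E)

Every module proves one or more of these propositions, taking the earlier ones as hypotheses when needed.
-/

namespace Pool.Agent.H11.ZDE

open RootLat

/-! ## Abstract part -/

section abs
variable {L : Type*} [AddCommGroup L] {R : RootLat L} (S : Sys R)

/-- acyclicity and more (claim XY) -/
def XYStmt : Prop := ∀ x, S.A x → ∀ b c, S.Reach x b c → S.Good x b c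

/-- sinks persist -/
def F2Stmt : Prop := ∀ x a b, S.A x → S.Sink x b → S.F x a → R.P ((x * R.r a) b) → S.Sink (x * R.r a) b

/-- first step from a part of a sink -/
def F1Stmt : Prop := ∀ x b c e, S.A x → S.Sink x b → S.F x c → R.Q (b - c) (b - c) = 2 → R.P (b - c) →
  S.Arr x c e → e = b - c ∨ (R.Q (b - c) e = 1 ∧ R.P (b - c - e))

/-- claim D -/
def DStmt : Prop := ∀ x, S.A x → ∀ b c e, S.Sink x b → S.F x c → R.Q (b - c) (b - c) = 2 → R.P (b - c) →
  S.Reach x c e → R.P (b - e) ∧ (R.Q e b = 0 ∨ R.Q e b = 1)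

/-- claim C -/
def CStmt : Prop := ∀ x, S.A x → ∀ b c d d' e, S.Core x b c d d' → S.Reach x c e →
  R.P (b - e) ∧ (R.Q e b = 0 ∨ R.Q e b = 1)

/-- at a full element a non-simple sink gives a smaller sink -/
def DescStmt : Prop := ∀ x, S.A x → S.Full x → ∀ b, S.Sink x b → b ∉ R.S → ∃ b', S.Sink x b' ∧ R.ht b' < R.ht b

/-- a simple sink of `x` is an inversion of every maximal element above `x` -/
def SimpleStmt : Prop := ∀ x s v, S.A x → s ∈ R.S → S.Sink x s → S.Up x v → (∀ a, ¬ S.F v a) → R.P (-(v s))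

/-- abstract main theorem -/
def MainStmt : Prop := ∀ x v, S.A x → S.Full x → S.Up x v → x ≠ v → (∀ a, ¬ S.F v a) →
  ∃ s ∈ R.S, R.P (x s) ∧ R.P (-(v s))

end abs

/-! ## Coxeter part -/

section cox
variable {B W : Type*} [Group W] {M : CoxeterMatrix B} (cs : CoxeterSystem M W)
  {L : Type*} [AddCommGroup L] (R : RootLat L)

/-- the geometric representation and what we need about it -/
structure Geo where
  ρ : W →* Module.End ℤ L
  T : L → W
  α : B → L
  iso : ∀ w a b, R.Q (ρ w a) (ρ w b) = R.Q a b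
  inj : Function.Injective ρ
  ρT : ∀ b, R.Q b b = 2 → ρ (T b) = R.r b
  αS : Set.range α = R.S
  Tα : ∀ i, T (α i) = cs.simple i
  refl : ∀ t, cs.IsReflection t ↔ ∃ b, R.Q b b = 2 ∧ R.P b ∧ t = T b
  lt : ∀ w b, R.Q b b = 2 → R.P b → R.P (ρ w b) → cs.length w < cs.length (w * T b)
  gt : ∀ w b, R.Q b b = 2 → R.P b → R.P (-(ρ w b)) → cs.length (w * T b) < cs.length w

variable {cs R} (G : Geo cs R)

/-- joined by a reflection -/
def Geo.Jn (x y : W) : Prop := ∃ b, R.Q b b = 2 ∧ R.P b ∧ y = x * G.T b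

/-- module GR1: gradedness -/
def GradStmt : Prop := ∀ y b, R.Q b b = 2 → R.P b → R.P (G.ρ y b) → cs.length y + 1 < cs.length (y * G.T b) →
  ∃ c d, R.Q c c = 2 ∧ R.P c ∧ R.Q d d = 2 ∧ R.P d ∧ b = c + d ∧ R.P (G.ρ y c) ∧ R.P (G.ρ y d)

/-- module GR2: covers -/
def CovStmt : Prop := ∀ x y : W, Cov cs x y ↔ (G.Jn x y ∧ cs.length y = cs.length x + 1)

/-- module GR3: the diamond property -/
def DiamondStmt (cs : CoxeterSystem M W) : Prop := ∀ x y z : W, Cov cs x y → Cov cs y z →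
  ∃ a, a ≠ y ∧ Cov cs x a ∧ Cov cs a z

/-- module K1: factorisations of a product of two reflections (`b'` is the first factor) -/
def CNStmt : Prop := ∀ b c b' c', R.Q b b = 2 → R.P b → R.Q c c = 2 → R.P c → R.Q b' b' = 2 → R.P b' →
  R.Q c' c' = 2 → R.P c' → b ≠ c → G.T b * G.T c = G.T b' * G.T c' →
  b' = b ∨ b' = c ∨ (R.Q b c = -1 ∧ b' = b + c) ∨ (R.Q b c = 1 ∧ b' = b - c) ∨ (R.Q b c = 1 ∧ b' = c - b)

/-- module K2: `y ≠ a` have the common neighbours `B, z, c`, and `T` is a common neighbour of `z, c` -/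
def KHardStmt : Prop := ∀ y a B z c T : W, y ≠ a → B ≠ z → B ≠ c → z ≠ c →
  G.Jn y B → G.Jn y z → G.Jn y c → G.Jn a B → G.Jn a z → G.Jn a c → G.Jn z T → G.Jn c T →
  cs.length T % 2 ≠ cs.length B % 2 → G.Jn B T

/-- module K3 -/
def KLongStmt : Prop := ∀ o1 o2 o3 e1 e2 e3 : W, o1 ≠ o2 → e1 ≠ e2 → e1 ≠ e3 → e2 ≠ e3 →
  G.Jn o1 e1 → G.Jn o1 e2 → G.Jn o1 e3 → G.Jn o2 e1 → G.Jn o2 e2 → G.Jn o2 e3 → G.Jn o3 e2 → G.Jn o3 e3 →
  G.Jn e1 o3

/-- module LEM: special matchings preserve the Bruhat graph -/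
def LemmaEStmt : Prop := ∀ (u v : W) (m : W → W), SM cs u v m → ∀ p q, Ic cs u v p → Ic cs u v q →
  G.Jn p q → G.Jn (m p) (m q)

/-- module R2 -/
def R2Stmt : Prop := ∀ u w : W, Zircon cs u w → ∀ z a b : W, Ic cs u w z → a ≠ b →
  Bru cs u a → G.Jn z a → cs.length a < cs.length z → Bru cs u b → G.Jn z b → cs.length b < cs.length z →
  ∃ m, Bru cs u m ∧ Bru cs m z ∧ m ≠ z ∧ G.Jn a m ∧ G.Jn b m

/-- the rules (module RUL proves them from `Zircon cs u w`) -/
structure WRules (u w : W) : Prop where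
  O : ∀ z b c, Ic cs u w z → R.Q b b = 2 → R.P b → R.P (-(G.ρ z b)) → Bru cs u (z * G.T b) →
    R.Q c c = 2 → R.P c → R.P (-(G.ρ z c)) → Bru cs u (z * G.T c) → R.Q b c = 0 → Bru cs u (z * G.T b * G.T c)
  M : ∀ z b c, Ic cs u w z → R.Q b b = 2 → R.P b → R.P (-(G.ρ z b)) → Bru cs u (z * G.T b) →
    R.Q c c = 2 → R.P c → R.P (-(G.ρ z c)) → Bru cs u (z * G.T c) → R.Q b c = -1 →
    Bru cs u (z * G.T b * G.T c) ∨ Bru cs u (z * G.T c * G.T b)
  L : ∀ z b i, Ic cs u w z → R.Q b b = 2 → R.P b → R.P (-(G.ρ z b)) → Bru cs u (z * G.T b) →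
    R.Q i i = 2 → R.P i → R.P (G.ρ z i) → R.Q (b + i) (b + i) = 2 → R.P (-(G.ρ z (b + i))) →
    Bru cs u (z * G.T (b + i)) → Bru cs u (z * G.T b * G.T i)

end cox

/-! ## Lattice part -/

section lat
variable {B : Type*} [Fintype B] [DecidableEq B] (M : CoxeterMatrix B)

/-- Cartan matrix of a simply laced Coxeter matrix -/
def cart (i j : B) : ℤ := if i = j then 2 else if M i j = 3 then -1 else 0

/-- simply laced and positive definite -/
structure PosDef : Prop where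
  sl : ∀ i j, i ≠ j → M i j = 2 ∨ M i j = 3
  pos : ∀ a : B → ℤ, a ≠ 0 → 0 < ∑ i, ∑ j, cart M i j * a i * a j

end lat

end Pool.Agent.H11.ZDE
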