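import Mathlib

/-!
# Root lattices of simply laced type and abstract Bruhat systems

Base file of the formalisation of MP_92a1a0_co (Delanoy's descent conjecture for zircons), all types A, D, E.
-/

set_option linter.unusedSimpArgs false

namespace Pool.Agent.H11.ZDE

/-- A positive definite integral lattice with a system of positive vectors, such that every vector of norm 2
is positive or negative, and with simple roots. -/
structure RootLat (L : Type*) [AddCommGroup L] where
  /-- the bilinear form -/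
  Q : L → L → ℤ
  Q_add : ∀ a b c, Q (a + b) c = Q a c + Q b c
  Q_comm : ∀ a b, Q a b = Q b a
  Q_pos : ∀ a, a ≠ 0 → 0 < Q a a
  /-- positive vectors -/
  P : L → Prop
  P_add : ∀ {a b}, P a → P b → P (a + b)
  P_zero : ¬ P 0
  P_root : ∀ a, Q a a = 2 → P a ∨ P (-a)
  /-- height -/
  ht : L → ℤ
  ht_add : ∀ a b, ht (a + b) = ht a + ht b
  ht_pos : ∀ a, P a → 0 < ht a
  /-- simple roots -/
  S : Set L
  S_root : ∀ s ∈ S, Q s s = 2
  S_pos : ∀ s ∈ S, P s
  S_ht : ∀ s ∈ S, ht s = 1
  /-- a positive root which is not simple is a simple root plus a positive root -/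
  nonsimple : ∀ a, Q a a = 2 → P a → a ∉ S → ∃ s ∈ S, Q a s = 1 ∧ P (a - s)
  /-- a simple reflection keeps all other positive roots positive -/
  S_refl : ∀ s ∈ S, ∀ a, Q a a = 2 → P a → a ≠ s → P (a - Q a s • s)
  fin : {a | Q a a = 2}.Finite

namespace RootLat

variable {L : Type*} [AddCommGroup L] (R : RootLat L)

theorem Q_addr (a b c : L) : R.Q c (a + b) = R.Q c a + R.Q c b := by
  rw [R.Q_comm, R.Q_add, R.Q_comm a, R.Q_comm b]

theorem Q_zl (a : L) : R.Q 0 a = 0 := by
  have := R.Q_add 0 0 a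
  simp only [add_zero] at this
  linarith

theorem Q_zr (a : L) : R.Q a 0 = 0 := by rw [R.Q_comm, R.Q_zl]

theorem Q_neg (a b : L) : R.Q (-a) b = - R.Q a b := by
  have := R.Q_add (-a) a b
  simp only [neg_add_cancel, R.Q_zl] at this
  linarith

theorem Q_negr (a b : L) : R.Q b (-a) = - R.Q b a := by
  rw [R.Q_comm, R.Q_neg, R.Q_comm]

theorem Q_sub (a b c : L) : R.Q (a - b) c = R.Q a c - R.Q b c := by
  rw [sub_eq_add_neg, R.Q_add, R.Q_neg]; ring

theorem Q_subr (a b c : L) : R.Q c (a - b) = R.Q c a - R.Q c b := by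
  rw [sub_eq_add_neg, R.Q_addr, R.Q_negr]; ring

theorem Q_nsmul (n : ℕ) (a b : L) : R.Q (n • a) b = n * R.Q a b := by
  induction n with
  | zero => simp [R.Q_zl]
  | succ n ih => rw [succ_nsmul, R.Q_add, ih]; push_cast; ring

theorem Q_smul (n : ℤ) (a b : L) : R.Q (n • a) b = n * R.Q a b := by
  obtain ⟨m, rfl | rfl⟩ := n.eq_nat_or_neg
  · rw [natCast_zsmul, R.Q_nsmul]
  · rw [neg_smul, R.Q_neg, natCast_zsmul, R.Q_nsmul]; ring

theorem Q_smulr (n : ℤ) (a b : L) : R.Q b (n • a) = n * R.Q b a := by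
  rw [R.Q_comm, R.Q_smul, R.Q_comm]

/-- The reflection `a ↦ a - (a,b) b`. -/
def r (b : L) : Module.End ℤ L where
  toFun a := a - R.Q a b • b
  map_add' a c := by rw [R.Q_add, add_smul]; abel
  map_smul' n a := by
    rw [R.Q_smul, smul_sub, mul_smul, RingHom.id_apply]

theorem r_apply (b a : L) : R.r b a = a - R.Q a b • b := rfl

/-- positive root -/
def Pr (a : L) : Prop := R.Q a a = 2 ∧ R.P a

theorem P_ne {a : L} (h : R.P a) : a ≠ 0 := fun e => R.P_zero (e ▸ h)

theorem P_neg {a : L} (h : R.P a) (h' : R.P (-a)) : False := by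
  have := R.P_add h h'
  rw [add_neg_cancel] at this
  exact R.P_zero this

theorem P_cast {a b : L} (h : R.P a) (e : b = a) : R.P b := e ▸ h

theorem r_self {b : L} (h : R.Q b b = 2) : R.r b b = - b := by
  rw [r_apply, h, two_smul]; abel

theorem Q_r {b : L} (h : R.Q b b = 2) (a c : L) : R.Q (R.r b a) (R.r b c) = R.Q a c := by
  simp only [r_apply, Q_sub, Q_subr, Q_smul, Q_smulr, h]
  rw [R.Q_comm c b]; ring

theorem r_r {b : L} (h : R.Q b b = 2) : R.r b * R.r b = 1 := by
  ext a
  simp only [Module.End.mul_apply, Module.End.one_apply, r_apply, Q_sub, Q_smul, h]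
  module

theorem conj {b c : L} (h : R.Q b b = 2) : R.r c * R.r b = R.r b * R.r (R.r b c) := by
  ext a
  simp only [Module.End.mul_apply, r_apply, Q_sub, Q_smul, Q_subr, Q_smulr, h]
  rw [R.Q_comm b c]
  module

theorem sw0 {b c : L} (h : R.Q b c = 0) : R.r b * R.r c = R.r c * R.r b := by
  ext a
  simp only [Module.End.mul_apply, r_apply, Q_sub, Q_smul, Q_subr, Q_smulr, h, R.Q_comm c b]
  module

theorem swm {b c : L} (hb : R.Q b b = 2) (h : R.Q b c = -1) : R.r b * R.r c = R.r (b + c) * R.r b := by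
  ext a
  simp only [Module.End.mul_apply, r_apply, Q_sub, Q_smul, Q_subr, Q_smulr, Q_add, Q_addr, h, hb, R.Q_comm c b]
  module

theorem swm' {b c : L} (hc : R.Q c c = 2) (h : R.Q b c = -1) : R.r b * R.r c = R.r c * R.r (b + c) := by
  ext a
  simp only [Module.End.mul_apply, r_apply, Q_sub, Q_smul, Q_subr, Q_smulr, Q_add, Q_addr, h, hc, R.Q_comm c b]
  module

theorem r_neg (b : L) : R.r (-b) = R.r b := by
  ext a
  simp only [r_apply, Q_negr]
  module

/-- Cauchy-Schwarz for roots: if `a + b` has norm `0` then `b = -a`. -/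
theorem eq_zero {a : L} (h : R.Q a a = 0) : a = 0 := by
  by_contra hne
  have := R.Q_pos a hne
  omega

theorem Q_nonneg (a : L) : 0 ≤ R.Q a a := by
  by_cases h : a = 0
  · rw [h, R.Q_zl]
  · exact (R.Q_pos a h).le

/-- inner products of two roots -/
theorem Q_cases {a b : L} (ha : R.Q a a = 2) (hb : R.Q b b = 2) :
    R.Q a b = -2 ∨ R.Q a b = -1 ∨ R.Q a b = 0 ∨ R.Q a b = 1 ∨ R.Q a b = 2 := by
  have h1 := R.Q_nonneg (a + b)
  have h2 := R.Q_nonneg (a - b)
  simp only [R.Q_add, R.Q_addr, R.Q_sub, R.Q_subr, ha, hb, R.Q_comm b a] at h1 h2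
  omega

theorem eq_of_two {a b : L} (ha : R.Q a a = 2) (hb : R.Q b b = 2) (h : R.Q a b = 2) : a = b := by
  have h1 : R.Q (a - b) (a - b) = 0 := by
    simp only [R.Q_sub, R.Q_subr, ha, hb, R.Q_comm b a, h]; norm_num
  exact sub_eq_zero.1 (R.eq_zero h1)

theorem eq_neg_of {a b : L} (ha : R.Q a a = 2) (hb : R.Q b b = 2) (h : R.Q a b = -2) : a = -b := by
  have h1 : R.Q (a + b) (a + b) = 0 := by
    simp only [R.Q_add, R.Q_addr, ha, hb, R.Q_comm b a, h]; norm_num
  exact eq_neg_of_add_eq_zero_left (R.eq_zero h1)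

/-- inner products of two distinct positive roots -/
theorem Q_cases' {a b : L} (ha : R.Q a a = 2) (hb : R.Q b b = 2) (pa : R.P a) (pb : R.P b) (hne : a ≠ b) :
    R.Q a b = -1 ∨ R.Q a b = 0 ∨ R.Q a b = 1 := by
  rcases R.Q_cases ha hb with h | h | h | h | h
  · exfalso
    have := R.eq_neg_of ha hb h
    subst this
    exact R.P_neg pb pa
  · exact Or.inl h
  · exact Or.inr (Or.inl h)
  · exact Or.inr (Or.inr h)
  · exact absurd (R.eq_of_two ha hb h) hne

/-- there is no triangle with all inner products `-1` -/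
theorem no_triangle {a b c : L} (ha : R.Q a a = 2) (hb : R.Q b b = 2) (hc : R.Q c c = 2) (pa : R.P a) (pb : R.P b)
    (pc : R.P c) (hab : R.Q a b = -1) (hbc : R.Q b c = -1) (hac : R.Q a c = -1) : False := by
  have h1 : R.Q (a + b + c) (a + b + c) = 0 := by
    simp only [R.Q_add, R.Q_addr, ha, hb, hc, R.Q_comm b a, R.Q_comm c a, R.Q_comm c b, hab, hbc, hac]; norm_num
  exact R.P_ne (R.P_add (R.P_add pa pb) pc) (R.eq_zero h1)

/-! ### states of a positive root -/

/-- `b` is a positive root, `x b > 0` and `x r_b` belongs to `V` -/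
structure Fm (V : Module.End ℤ L → Prop) (x : Module.End ℤ L) (b : L) : Prop where
  q : R.Q b b = 2
  p : R.P b
  xp : R.P (x b)
  v : V (x * R.r b)

/-- `b` is a positive root and `x b < 0` (inversion) -/
structure Im (x : Module.End ℤ L) (b : L) : Prop where
  q : R.Q b b = 2
  p : R.P b
  xn : R.P (-(x b))

end RootLat

open RootLat

/-- An abstract lower set `V` with a set `A` of active elements, satisfying the rules. -/
structure Sys {L : Type*} [AddCommGroup L] (R : RootLat L) where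
  V : Module.End ℤ L → Prop
  A : Module.End ℤ L → Prop
  μ : Module.End ℤ L → ℕ
  iso : ∀ x, V x → ∀ a b, R.Q (x a) (x b) = R.Q a b
  AV : ∀ x, A x → V x
  down : ∀ x b, V x → R.Q b b = 2 → R.P b → R.P (-(x b)) → V (x * R.r b)
  up : ∀ x b, A x → R.Fm V x b → A (x * R.r b)
  mu : ∀ x b, A x → R.Fm V x b → μ (x * R.r b) < μ x
  ruleO : ∀ x b c, A x → R.Fm V x b → R.Fm V x c → R.Q b c = 0 → V (x * R.r b * R.r c)
  ruleM : ∀ x b c, A x → R.Fm V x b → R.Fm V x c → R.Q b c = -1 →
    V (x * R.r b * R.r c) ∨ V (x * R.r c * R.r b)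
  ruleL : ∀ x b i, A x → R.Fm V x b → R.Im x i → R.Fm V x (b + i) → V (x * R.r b * R.r i)

namespace Sys

variable {L : Type*} [AddCommGroup L] {R : RootLat L} (S : Sys R)

/-- `z` is obtained from `y` by one up-step inside `V` -/
def Up1 (y z : Module.End ℤ L) : Prop := ∃ a, R.Fm S.V y a ∧ z = y * R.r a

/-- `z` is obtained from `y` by up-steps inside `V` -/
def Up (y z : Module.End ℤ L) : Prop := Relation.ReflTransGen S.Up1 y z

abbrev F (x : Module.End ℤ L) (b : L) : Prop := R.Fm S.V x b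

/-- arrow `b → c` at `x` -/
structure Arr (x : Module.End ℤ L) (b c : L) : Prop where
  fb : S.F x b
  fc : S.F x c
  q : R.Q b c = -1
  v : S.V (x * R.r b * R.r c)
  nv : ¬ S.V (x * R.r c * R.r b)

/-- path of length `n` of arrows at `x` -/
def Pth (x : Module.End ℤ L) (n : ℕ) (b c : L) : Prop :=
  ∃ f : ℕ → L, f 0 = b ∧ f n = c ∧ ∀ j < n, S.Arr x (f j) (f (j + 1))

/-- `c` is reached from `b` by a path of length at least one -/
def Reach (x : Module.End ℤ L) (b c : L) : Prop := ∃ n, 0 < n ∧ S.Pth x n b c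

/-- `b` has no outgoing arrow -/
structure Sink (x : Module.End ℤ L) (b : L) : Prop where
  fb : S.F x b
  s : ∀ e, S.F x e → R.Q b e = -1 → S.V (x * R.r e * R.r b)

/-- all simple roots are in `F` or inversions -/
def Full (x : Module.End ℤ L) : Prop := ∀ s ∈ R.S, R.P (x s) → S.V (x * R.r s)

/-- the conclusion of claim XY -/
def Good (x : Module.End ℤ L) (b c : L) : Prop :=
  b ≠ c ∧ (R.Q b c = 0 ∨ (R.Q b c = -1 ∧ S.Arr x b c) ∨ (R.Q b c = 1 ∧ R.Im x (b - c)))

/-- core of type (1,1) -/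
structure Core (x : Module.End ℤ L) (b c d d' : L) : Prop where
  sink : S.Sink x b
  fc : S.F x c
  id : R.Im x d
  id' : R.Im x d'
  qdd : R.Q d d' = 0
  qcd : R.Q c d = -1
  qcd' : R.Q c d' = -1
  sum : b = c + d + d'
  nv : ¬ S.V (x * R.r (c + d))
  nv' : ¬ S.V (x * R.r (c + d'))

end Sys

end Pool.Agent.H11.ZDE
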