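import Pool.Agent.H11.ZDE.Stmts

/-!
# Local facts: frames, macros, basic memberships
-/

set_option linter.unusedSimpArgs false
set_option linter.unusedVariables false

namespace Pool.Agent.H11.ZDE

open RootLat

variable {L : Type*} [AddCommGroup L] {R : RootLat L}

/-- frame of type `A_2`: two positive roots with inner product `-1` -/
structure Ch2 (R : RootLat L) (a b : L) : Prop where
  aa : R.Q a a = 2
  bb : R.Q b b = 2
  ab : R.Q a b = -1
  ba : R.Q b a = -1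
  pa : R.P a
  pb : R.P b

/-- frame of type `A_3`: chain `a - b - c` of positive roots -/
structure Ch (R : RootLat L) (a b c : L) : Prop where
  aa : R.Q a a = 2
  bb : R.Q b b = 2
  cc : R.Q c c = 2
  ab : R.Q a b = -1
  ba : R.Q b a = -1
  bc : R.Q b c = -1
  cb : R.Q c b = -1
  ac : R.Q a c = 0
  ca : R.Q c a = 0
  pa : R.P a
  pb : R.P b
  pc : R.P c

theorem Ch2.mk' {a b : L} (aa : R.Q a a = 2) (bb : R.Q b b = 2) (ab : R.Q a b = -1) (pa : R.P a) (pb : R.P b) :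
    Ch2 R a b := ⟨aa, bb, ab, by rw [R.Q_comm]; exact ab, pa, pb⟩

theorem Ch.mk' {a b c : L} (aa : R.Q a a = 2) (bb : R.Q b b = 2) (cc : R.Q c c = 2) (ab : R.Q a b = -1)
    (bc : R.Q b c = -1) (ac : R.Q a c = 0) (pa : R.P a) (pb : R.P b) (pc : R.P c) : Ch R a b c :=
  ⟨aa, bb, cc, ab, by rw [R.Q_comm]; exact ab, bc, by rw [R.Q_comm]; exact bc, ac,
    by rw [R.Q_comm]; exact ac, pa, pb, pc⟩

theorem Ch.rev {a b c : L} (h : Ch R a b c) : Ch R c b a :=
  ⟨h.cc, h.bb, h.aa, h.cb, h.bc, h.ba, h.ab, h.ca, h.ac, h.pc, h.pb, h.pa⟩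

namespace Sys

variable (S : Sys R) {x w : Module.End ℤ L} {a b c g i z : L}

/-- one down step, with all identities as arguments -/
theorem dn (hV : S.V x) (hq : R.Q b b = 2) (hp : R.P b) (hz : R.P z) (hv : -(x b) = z) (hw : x * R.r b = w) :
    S.V w := by
  subst hw
  exact S.down x b hV hq hp (hv ▸ hz)

/-- rule O with identities -/
theorem O (hx : S.A x) (hb : S.F x b) (hc : S.F x c) (hq : R.Q b c = 0) (hw : x * R.r b * R.r c = w) : S.V w :=
  hw ▸ S.ruleO x b c hx hb hc hq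

/-- build `S.F x b` -/
theorem mkF (hq : R.Q b b = 2) (hp : R.P b) (hz : R.P z) (hv : x b = z) (hV : S.V w) (hw : w = x * R.r b) :
    S.F x b := ⟨hq, hp, by rw [hv]; exact hz, hw ▸ hV⟩

theorem act (hx : S.A x) (hb : S.F x b) : S.A (x * R.r b) := S.up x b hx hb

/-- sign dichotomy for roots -/
theorem sgn (hx : S.V x) (hq : R.Q b b = 2) : R.P (x b) ∨ R.P (-(x b)) := by
  apply R.P_root
  rw [S.iso x hx, hq]

theorem x_ne {b : L} (h : R.P (x b)) (h' : R.P (-(x b))) : False := R.P_neg h h'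

/-- a frame from two elements of `F` -/
theorem ch2 (hb : S.F x b) (hc : S.F x c) (h : R.Q b c = -1) : Ch2 R b c :=
  Ch2.mk' hb.q hc.q h hb.p hc.p

/-- both `[b c]` and `[c b]` in `V` imply `b + c ∈ F` -/
theorem M2 (hx : S.A x) (hb : S.F x b) (hc : S.F x c) (h : R.Q b c = -1) (h1 : S.V (x * R.r b * R.r c))
    (h2 : S.V (x * R.r c * R.r b)) : S.F x (b + c) := by
  have e := S.ch2 hb hc h
  have hy := S.act hx hb
  have f1 : S.F (x * R.r b) c := S.mkF hc.q hc.p (R.P_add hb.xp hc.xp) (by (simp only [Module.End.mul_apply, Module.End.one_apply, RootLat.r_apply, RootLat.Q_sub, RootLat.Q_smul, RootLat.Q_subr, RootLat.Q_smulr, RootLat.Q_add, RootLat.Q_addr, RootLat.Q_neg, RootLat.Q_negr, Ch2.aa e, Ch2.bb e, Ch2.ab e, Ch2.ba e, map_add, map_sub, map_neg, map_zsmul]; try module)) h1 rfl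
  have f2 : S.F (x * R.r b) (c + b) := S.mkF (by (simp only [RootLat.Q_sub, RootLat.Q_smul, RootLat.Q_subr, RootLat.Q_smulr, RootLat.Q_add, RootLat.Q_addr, RootLat.Q_neg, RootLat.Q_negr, Ch2.aa e, Ch2.bb e, Ch2.ab e, Ch2.ba e]; try norm_num)) (R.P_add hc.p hb.p) hc.xp (by (simp only [Module.End.mul_apply, Module.End.one_apply, RootLat.r_apply, RootLat.Q_sub, RootLat.Q_smul, RootLat.Q_subr, RootLat.Q_smulr, RootLat.Q_add, RootLat.Q_addr, RootLat.Q_neg, RootLat.Q_negr, Ch2.aa e, Ch2.bb e, Ch2.ab e, Ch2.ba e, map_add, map_sub, map_neg, map_zsmul]; try module)) h2 (by (refine LinearMap.ext fun v => ?_; simp only [Module.End.mul_apply, Module.End.one_apply, RootLat.r_apply, RootLat.Q_sub, RootLat.Q_smul, RootLat.Q_subr, RootLat.Q_smulr, RootLat.Q_add, RootLat.Q_addr, RootLat.Q_neg, RootLat.Q_negr, Ch2.aa e, Ch2.bb e, Ch2.ab e, Ch2.ba e, map_add, map_sub, map_neg, map_zsmul]; try module))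
  have i1 : R.Im (x * R.r b) b := ⟨hb.q, hb.p, R.P_cast hb.xp (by (simp only [Module.End.mul_apply, Module.End.one_apply, RootLat.r_apply, RootLat.Q_sub, RootLat.Q_smul, RootLat.Q_subr, RootLat.Q_smulr, RootLat.Q_add, RootLat.Q_addr, RootLat.Q_neg, RootLat.Q_negr, Ch2.aa e, Ch2.bb e, Ch2.ab e, Ch2.ba e, map_add, map_sub, map_neg, map_zsmul]; try module))⟩
  have := S.ruleL _ c b hy f1 i1 f2
  exact S.mkF (by (simp only [RootLat.Q_sub, RootLat.Q_smul, RootLat.Q_subr, RootLat.Q_smulr, RootLat.Q_add, RootLat.Q_addr, RootLat.Q_neg, RootLat.Q_negr, Ch2.aa e, Ch2.bb e, Ch2.ab e, Ch2.ba e]; try norm_num)) (R.P_add hb.p hc.p) (R.P_add hb.xp hc.xp) (by (simp only [Module.End.mul_apply, Module.End.one_apply, RootLat.r_apply, RootLat.Q_sub, RootLat.Q_smul, RootLat.Q_subr, RootLat.Q_smulr, RootLat.Q_add, RootLat.Q_addr, RootLat.Q_neg, RootLat.Q_negr, Ch2.aa e, Ch2.bb e, Ch2.ab e, Ch2.ba e, map_add, map_sub, map_neg, map_zsmul];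 try module)) this (by (refine LinearMap.ext fun v => ?_; simp only [Module.End.mul_apply, Module.End.one_apply, RootLat.r_apply, RootLat.Q_sub, RootLat.Q_smul, RootLat.Q_subr, RootLat.Q_smulr, RootLat.Q_add, RootLat.Q_addr, RootLat.Q_neg, RootLat.Q_negr, Ch2.aa e, Ch2.bb e, Ch2.ab e, Ch2.ba e, map_add, map_sub, map_neg, map_zsmul]; try module))

/-- `b + c ∈ F` implies `[b c] ∈ V`  (for `x b > 0`, `x c > 0`) -/
theorem Vbc (e : Ch2 R b c) (hc : R.P (x c)) (hbc : S.F x (b + c)) : S.V (x * R.r b * R.r c) :=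
  S.dn hbc.v (b := b) e.aa e.pa hc (by (simp only [Module.End.mul_apply, Module.End.one_apply, RootLat.r_apply, RootLat.Q_sub, RootLat.Q_smul, RootLat.Q_subr, RootLat.Q_smulr, RootLat.Q_add, RootLat.Q_addr, RootLat.Q_neg, RootLat.Q_negr, Ch2.aa e, Ch2.bb e, Ch2.ab e, Ch2.ba e, map_add, map_sub, map_neg, map_zsmul]; try module)) (by (refine LinearMap.ext fun v => ?_; simp only [Module.End.mul_apply, Module.End.one_apply, RootLat.r_apply, RootLat.Q_sub, RootLat.Q_smul, RootLat.Q_subr, RootLat.Q_smulr, RootLat.Q_add, RootLat.Q_addr, RootLat.Q_neg, RootLat.Q_negr, Ch2.aa e, Ch2.bb e, Ch2.ab e, Ch2.ba e, map_add, map_sub, map_neg, map_zsmul]; try module))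

theorem Vcb (e : Ch2 R b c) (hb : R.P (x b)) (hbc : S.F x (b + c)) : S.V (x * R.r c * R.r b) :=
  S.dn hbc.v (b := c) e.bb e.pb hb (by (simp only [Module.End.mul_apply, Module.End.one_apply, RootLat.r_apply, RootLat.Q_sub, RootLat.Q_smul, RootLat.Q_subr, RootLat.Q_smulr, RootLat.Q_add, RootLat.Q_addr, RootLat.Q_neg, RootLat.Q_negr, Ch2.aa e, Ch2.bb e, Ch2.ab e, Ch2.ba e, map_add, map_sub, map_neg, map_zsmul]; try module)) (by (refine LinearMap.ext fun v => ?_; simp only [Module.End.mul_apply, Module.End.one_apply, RootLat.r_apply, RootLat.Q_sub, RootLat.Q_smul, RootLat.Q_subr, RootLat.Q_smulr, RootLat.Q_add, RootLat.Q_addr, RootLat.Q_neg, RootLat.Q_negr, Ch2.aa e, Ch2.bb e, Ch2.ab e, Ch2.ba e, map_add, map_sub, map_neg, map_zsmul]; try module))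

/-- lower ideal property -/
theorem low (e : Ch2 R b c) (hb : R.P (x b)) (hc : R.P (x c)) (hbc : S.F x (b + c)) : S.F x b := by
  have h1 := S.Vbc e hc hbc
  have h2 : S.V (x * R.r b) := S.dn h1 (b := c) e.bb e.pb (R.P_add hb hc) (by (simp only [Module.End.mul_apply, Module.End.one_apply, RootLat.r_apply, RootLat.Q_sub, RootLat.Q_smul, RootLat.Q_subr, RootLat.Q_smulr, RootLat.Q_add, RootLat.Q_addr, RootLat.Q_neg, RootLat.Q_negr, Ch2.aa e, Ch2.bb e, Ch2.ab e, Ch2.ba e, map_add, map_sub, map_neg, map_zsmul]; try module)) (by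
    rw [mul_assoc, R.r_r e.bb, mul_one])
  exact ⟨e.aa, e.pa, hb, h2⟩

theorem low' (e : Ch2 R b c) (hb : R.P (x b)) (hc : R.P (x c)) (hbc : S.F x (b + c)) : S.F x c := by
  have h1 := S.Vcb e hb hbc
  have h2 : S.V (x * R.r c) := S.dn h1 (b := b) e.aa e.pa (R.P_add hb hc) (by (simp only [Module.End.mul_apply, Module.End.one_apply, RootLat.r_apply, RootLat.Q_sub, RootLat.Q_smul, RootLat.Q_subr, RootLat.Q_smulr, RootLat.Q_add, RootLat.Q_addr, RootLat.Q_neg, RootLat.Q_negr, Ch2.aa e, Ch2.bb e, Ch2.ab e, Ch2.ba e, map_add, map_sub, map_neg, map_zsmul]; try module)) (by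
    rw [mul_assoc, R.r_r e.aa, mul_one])
  exact ⟨e.bb, e.pb, hc, h2⟩

/-- T1 -/
theorem T1 (hx : S.A x) (hc : S.F x c) (hb : S.F x b) (h : R.Q c b = 0) : S.F (x * R.r c) b := by
  refine S.mkF hb.q hb.p hb.xp ?_ (S.ruleO x c b hx hc hb h) rfl
  simp only [Module.End.mul_apply, r_apply, R.Q_comm b c, h, map_sub, map_zsmul]
  module

/-- T2: `(c,b) = -1` and `[c b] ∈ V` -/
theorem T2 (hc : S.F x c) (hb : S.F x b) (h : R.Q c b = -1) (hv : S.V (x * R.r c * R.r b)) :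
    S.F (x * R.r c) b := by
  have e := S.ch2 hc hb h
  exact S.mkF hb.q hb.p (R.P_add hb.xp hc.xp) (by (simp only [Module.End.mul_apply, Module.End.one_apply, RootLat.r_apply, RootLat.Q_sub, RootLat.Q_smul, RootLat.Q_subr, RootLat.Q_smulr, RootLat.Q_add, RootLat.Q_addr, RootLat.Q_neg, RootLat.Q_negr, Ch2.aa e, Ch2.bb e, Ch2.ab e, Ch2.ba e, map_add, map_sub, map_neg, map_zsmul]; try module)) hv rfl

/-- T3: `c = b + i`, `i ∈ I` -/
theorem T3 (hx : S.A x) (e : Ch2 R b i) (hb : S.F x b) (hi : R.P (-(x i))) (hc : S.F x (b + i)) :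
    S.F (x * R.r (b + i)) b := by
  refine S.mkF hb.q hb.p hi (by (simp only [Module.End.mul_apply, Module.End.one_apply, RootLat.r_apply, RootLat.Q_sub, RootLat.Q_smul, RootLat.Q_subr, RootLat.Q_smulr, RootLat.Q_add, RootLat.Q_addr, RootLat.Q_neg, RootLat.Q_negr, Ch2.aa e, Ch2.bb e, Ch2.ab e, Ch2.ba e, map_add, map_sub, map_neg, map_zsmul]; try module)) (S.ruleL x b i hx hb ⟨e.bb, e.pb, hi⟩ hc) (by (refine LinearMap.ext fun v => ?_; simp only [Module.End.mul_apply, Module.End.one_apply, RootLat.r_apply, RootLat.Q_sub, RootLat.Q_smul, RootLat.Q_subr, RootLat.Q_smulr, RootLat.Q_add, RootLat.Q_addr, RootLat.Q_neg, RootLat.Q_negr, Ch2.aa e, Ch2.bb e, Ch2.ab e, Ch2.ba e, map_add, map_sub, map_neg, map_zsmul]; try module))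

/-- T8: `c ∈ F`, `c + i ∈ F`, `i ∈ I` gives `i ∈ F(x r_c)` -/
theorem T8 (hx : S.A x) (e : Ch2 R c i) (hc : S.F x c) (hi : R.P (-(x i))) (hci : S.F x (c + i)) :
    S.F (x * R.r c) i := by
  refine S.mkF e.bb e.pb hci.xp (by (simp only [Module.End.mul_apply, Module.End.one_apply, RootLat.r_apply, RootLat.Q_sub, RootLat.Q_smul, RootLat.Q_subr, RootLat.Q_smulr, RootLat.Q_add, RootLat.Q_addr, RootLat.Q_neg, RootLat.Q_negr, Ch2.aa e, Ch2.bb e, Ch2.ab e, Ch2.ba e, map_add, map_sub, map_neg, map_zsmul]; try module)) (S.ruleL x c i hx hc ⟨e.bb, e.pb, hi⟩ hci) rfl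

/-- T9: `c + g ∈ F`, `x c > 0`, `x g > 0` gives `g ∈ F(x r_c)` -/
theorem T9 (e : Ch2 R c g) (hg : R.P (x g)) (hcg : S.F x (c + g)) : S.F (x * R.r c) g :=
  S.mkF e.bb e.pb hcg.xp (by (simp only [Module.End.mul_apply, Module.End.one_apply, RootLat.r_apply, RootLat.Q_sub, RootLat.Q_smul, RootLat.Q_subr, RootLat.Q_smulr, RootLat.Q_add, RootLat.Q_addr, RootLat.Q_neg, RootLat.Q_negr, Ch2.aa e, Ch2.bb e, Ch2.ab e, Ch2.ba e, map_add, map_sub, map_neg, map_zsmul]; try module)) (S.Vbc e hg hcg) rfl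

/-- T10: `c + g ∈ F`, `x c > 0`, `x g > 0` gives `c + g ∈ F(x r_c)` -/
theorem T10 (e : Ch2 R c g) (hc : R.P (x c)) (hg : R.P (x g)) (hcg : S.F x (c + g)) :
    S.F (x * R.r c) (c + g) :=
  S.mkF (by (simp only [RootLat.Q_sub, RootLat.Q_smul, RootLat.Q_subr, RootLat.Q_smulr, RootLat.Q_add, RootLat.Q_addr, RootLat.Q_neg, RootLat.Q_negr, Ch2.aa e, Ch2.bb e, Ch2.ab e, Ch2.ba e]; try norm_num)) (R.P_add e.pa e.pb) hg (by (simp only [Module.End.mul_apply, Module.End.one_apply, RootLat.r_apply, RootLat.Q_sub, RootLat.Q_smul, RootLat.Q_subr, RootLat.Q_smulr, RootLat.Q_add, RootLat.Q_addr, RootLat.Q_neg, RootLat.Q_negr, Ch2.aa e, Ch2.bb e, Ch2.ab e, Ch2.ba e, map_add, map_sub, map_neg, map_zsmul]; try module)) (S.Vcb e hc hcg) (by (refine LinearMap.ext fun v => ?_; simp only [Module.End.mul_apply, Module.End.one_apply, RootLat.r_apply, RootLat.Q_sub, RootLat.Q_smul, RootLat.Q_subr, RootLat.Q_smulr, RootLat.Q_add, RootLat.Q_addr,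 RootLat.Q_neg, RootLat.Q_negr, Ch2.aa e, Ch2.bb e, Ch2.ab e, Ch2.ba e, map_add, map_sub, map_neg, map_zsmul]; try module))

/-- T7: `(b,c) = -1`: `b + c ∈ F(x r_c)` iff `[b c] ∈ V` -/
theorem T7 (e : Ch2 R b c) (hb : R.P (x b)) (hv : S.V (x * R.r b * R.r c)) : S.F (x * R.r c) (b + c) :=
  S.mkF (by (simp only [RootLat.Q_sub, RootLat.Q_smul, RootLat.Q_subr, RootLat.Q_smulr, RootLat.Q_add, RootLat.Q_addr, RootLat.Q_neg, RootLat.Q_negr, Ch2.aa e, Ch2.bb e, Ch2.ab e, Ch2.ba e]; try norm_num)) (R.P_add e.pa e.pb) hb (by (simp only [Module.End.mul_apply, Module.End.one_apply, RootLat.r_apply, RootLat.Q_sub, RootLat.Q_smul, RootLat.Q_subr, RootLat.Q_smulr, RootLat.Q_add, RootLat.Q_addr, RootLat.Q_neg, RootLat.Q_negr, Ch2.aa e, Ch2.bb e, Ch2.ab e, Ch2.ba e, map_add, map_sub, map_neg, map_zsmul]; try module)) hv (by (refine LinearMap.ext fun v => ?_; simp only [Module.End.mul_apply, Module.End.one_apply, RootLat.r_apply,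 RootLat.Q_sub, RootLat.Q_smul, RootLat.Q_subr, RootLat.Q_smulr, RootLat.Q_add, RootLat.Q_addr, RootLat.Q_neg, RootLat.Q_negr, Ch2.aa e, Ch2.bb e, Ch2.ab e, Ch2.ba e, map_add, map_sub, map_neg, map_zsmul]; try module))

/-- trichotomy for `(b,c) = -1` -/
theorem tri (hx : S.A x) (hb : S.F x b) (hc : S.F x c) (h : R.Q b c = -1) :
    S.F x (b + c) ∨ S.Arr x b c ∨ S.Arr x c b := by
  by_cases h1 : S.V (x * R.r b * R.r c)
  · by_cases h2 : S.V (x * R.r c * R.r b)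
    · exact Or.inl (S.M2 hx hb hc h h1 h2)
    · exact Or.inr (Or.inl ⟨hb, hc, h, h1, h2⟩)
  · rcases S.ruleM x b c hx hb hc h with h2 | h2
    · exact absurd h2 h1
    · exact Or.inr (Or.inr ⟨hc, hb, by rw [R.Q_comm]; exact h, h2, h1⟩)

/-- an arrow `b → c` excludes `b + c ∈ F` -/
theorem Arr.nsum {S : Sys R} {x : Module.End ℤ L} {b c : L} (h : S.Arr x b c) : ¬ S.F x (b + c) := fun hf =>
  h.nv (S.Vcb (S.ch2 h.fb h.fc h.q) h.fb.xp hf)

theorem Arr.asymm {S : Sys R} {x : Module.End ℤ L} {b c : L} (h : S.Arr x b c) (h' : S.Arr x c b) : False :=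
  h.nv h'.v

end Sys

end Pool.Agent.H11.ZDE
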