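import Pool.Agent.H11.ZDE.Loc

/-!
# Local facts used for claim XY
-/

set_option linter.unusedSimpArgs false
set_option linter.unusedVariables false

namespace Pool.Agent.H11.ZDE

open RootLat

variable {L : Type*} [AddCommGroup L] {R : RootLat L}

namespace Sys

variable (S : Sys R) {x w : Module.End ℤ L} {a b b' c g i z e f : L}

/-- UT: an arrow persists at `x r_c` -/
theorem UT (hx : S.A x) (h : S.Arr x b b') (hc : S.F x c) (hb : S.F (x * R.r c) b) (hb' : S.F (x * R.r c) b')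
    (hκ : R.P (c - (R.Q c b + R.Q c b') • b - R.Q c b' • b')) : S.Arr (x * R.r c) b b' := by
  have hy := S.act hx hc
  have hcc := hc.q
  have h2 : R.Q b' b = -1 := by rw [R.Q_comm]; exact h.q
  have hnv : ¬ S.V (x * R.r c * R.r b' * R.r b) := by
    intro hV
    refine h.nv (S.dn hV (b := c - (R.Q c b + R.Q c b') • b - R.Q c b' • b') ?_ hκ hc.xp ?_ ?_)
    · simp only [Q_sub, Q_subr, Q_smul, Q_smulr, h.fb.q, h.fc.q, h.q, h2, hc.q, R.Q_comm b c, R.Q_comm b' c]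
      ring
    · simp only [Module.End.mul_apply, r_apply, Q_sub, Q_smul, Q_subr, Q_smulr, h.fb.q, h.fc.q, h.q, h2, hc.q,
        R.Q_comm b c, R.Q_comm b' c, map_sub, map_zsmul, map_add]
      module
    · refine LinearMap.ext fun v => ?_
      simp only [Module.End.mul_apply, r_apply, Q_sub, Q_smul, Q_subr, Q_smulr, h.fb.q, h.fc.q, h.q, h2, hc.q,
        R.Q_comm b c, R.Q_comm b' c, map_sub, map_zsmul, map_add]
      module
  refine ⟨hb, hb', h.q, ?_, hnv⟩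
  rcases S.ruleM _ b b' hy hb hb' h.q with h3 | h3
  · exact h3
  · exact absurd h3 hnv

/-- UT7 -/
theorem UT7 (hx : S.A x) (h : S.Arr x b b') (hc : S.F x c) (h0 : R.Q b c = 0) (h1 : R.Q b' c = -1)
    (hv : S.V (x * R.r b' * R.r c)) : S.Arr (x * R.r c) b (b' + c) := by
  have hy := S.act hx hc
  have e : Ch R b b' c := Ch.mk' h.fb.q h.fc.q hc.q h.q h1 h0 h.fb.p h.fc.p hc.p
  have hb : S.F (x * R.r c) b := S.T1 hx hc h.fb (by rw [R.Q_comm]; exact h0)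
  have hb' : S.F (x * R.r c) (b' + c) := S.T7 (S.ch2 h.fc hc h1) h.fc.xp hv
  have hnv : ¬ S.V (x * R.r c * R.r (b' + c) * R.r b) := fun hV =>
    h.nv (S.dn hV (b := c) e.cc e.pc (R.P_add hc.xp h.fc.xp) (by (simp only [Module.End.mul_apply, Module.End.one_apply, RootLat.r_apply, RootLat.Q_sub, RootLat.Q_smul, RootLat.Q_subr, RootLat.Q_smulr, RootLat.Q_add, RootLat.Q_addr, RootLat.Q_neg, RootLat.Q_negr, Ch.aa e, Ch.bb e, Ch.cc e, Ch.ab e, Ch.ba e, Ch.bc e, Ch.cb e, Ch.ac e, Ch.ca e, map_add, map_sub, map_neg, map_zsmul]; try module)) (by (refine LinearMap.ext fun v => ?_; simp only [Module.End.mul_apply, Module.End.one_apply, RootLat.r_apply, RootLat.Q_sub, RootLat.Q_smul, RootLat.Q_subr, RootLat.Q_smulr, RootLat.Q_add, RootLat.Q_addr, RootLat.Q_neg, RootLat.Q_negr, Ch.aa e, Ch.bb e, Ch.cc e, Ch.ab e, Ch.ba e, Ch.bc e, Ch.cb e, Ch.ac e, Ch.ca e, map_add, map_sub, map_neg, map_zsmul]; try module)))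
  refine ⟨hb, hb', by (simp only [RootLat.Q_sub, RootLat.Q_smul, RootLat.Q_subr, RootLat.Q_smulr, RootLat.Q_add, RootLat.Q_addr, RootLat.Q_neg, RootLat.Q_negr, Ch.aa e, Ch.bb e, Ch.cc e, Ch.ab e, Ch.ba e, Ch.bc e, Ch.cb e, Ch.ac e, Ch.ca e]; try norm_num), ?_, hnv⟩
  rcases S.ruleM _ b (b' + c) hy hb hb' (by (simp only [RootLat.Q_sub, RootLat.Q_smul, RootLat.Q_subr, RootLat.Q_smulr, RootLat.Q_add, RootLat.Q_addr, RootLat.Q_neg, RootLat.Q_negr, Ch.aa e, Ch.bb e, Ch.cc e, Ch.ab e, Ch.ba e, Ch.bc e, Ch.cb e, Ch.ac e, Ch.ca e]; try norm_num)) with h3 | h3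
  · exact h3
  · exact absurd h3 hnv

/-- T89: `b → c + g`, `(b,c) = 0`, `g > 0` gives `b → g` at `x r_c` -/
theorem T89 (hx : S.A x) (h : S.Arr x b (c + g)) (hc : S.F x c) (h0 : R.Q b c = 0) (hg : R.Q g g = 2)
    (pg : R.P g) : S.Arr (x * R.r c) b g := by
  have hy := S.act hx hc
  have hcg : R.Q c g = -1 := by
    have := h.fc.q
    simp only [Q_add, Q_addr, hc.q, hg, R.Q_comm g c] at this
    linarith
  have hbg : R.Q b g = -1 := by
    have := h.q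
    simp only [Q_addr, h0] at this
    linarith
  have e : Ch R b g c := Ch.mk' h.fb.q hg hc.q hbg (by rw [R.Q_comm]; exact hcg) h0 h.fb.p pg hc.p
  have hb : S.F (x * R.r c) b := S.T1 hx hc h.fb (by rw [R.Q_comm]; exact h0)
  have e2 : Ch2 R c g := Ch2.mk' hc.q hg hcg hc.p pg
  have hcgF := h.fc
  have key : S.F (x * R.r c) g ∧ ¬ S.V (x * R.r c * R.r g * R.r b) := by
    rcases S.sgn (S.AV x hx) hg with hs | hs
    · have hgF := S.T9 e2 hs h.fc
      refine ⟨hgF, fun hV => h.nv ?_⟩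
      have hz := S.act hy hgF
      have f1 : S.F (x * R.r c * R.r g) b := S.mkF h.fb.q h.fb.p (R.P_add h.fb.xp h.fc.xp) (by (simp only [Module.End.mul_apply, Module.End.one_apply, RootLat.r_apply, RootLat.Q_sub, RootLat.Q_smul, RootLat.Q_subr, RootLat.Q_smulr, RootLat.Q_add, RootLat.Q_addr, RootLat.Q_neg, RootLat.Q_negr, Ch.aa e, Ch.bb e, Ch.cc e, Ch.ab e, Ch.ba e, Ch.bc e, Ch.cb e, Ch.ac e, Ch.ca e, map_add, map_sub, map_neg, map_zsmul]; try module)) hV rfl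
      have f2 : S.F (x * R.r c * R.r g) c := S.mkF hc.q hc.p hs (by (simp only [Module.End.mul_apply, Module.End.one_apply, RootLat.r_apply, RootLat.Q_sub, RootLat.Q_smul, RootLat.Q_subr, RootLat.Q_smulr, RootLat.Q_add, RootLat.Q_addr, RootLat.Q_neg, RootLat.Q_negr, Ch.aa e, Ch.bb e, Ch.cc e, Ch.ab e, Ch.ba e, Ch.bc e, Ch.cb e, Ch.ac e, Ch.ca e, map_add, map_sub, map_neg, map_zsmul]; try module)) h.fc.v (by (refine LinearMap.ext fun v => ?_; simp only [Module.End.mul_apply, Module.End.one_apply, RootLat.r_apply, RootLat.Q_sub, RootLat.Q_smul, RootLat.Q_subr, RootLat.Q_smulr, RootLat.Q_add, RootLat.Q_addr, RootLat.Q_neg, RootLat.Q_negr, Ch.aa e, Ch.bb e, Ch.cc e, Ch.ab e, Ch.ba e, Ch.bc e, Ch.cb e, Ch.ac e, Ch.ca e, map_add, map_sub, map_neg, map_zsmul]; try module))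
      exact S.O hz f1 f2 h0 (by (refine LinearMap.ext fun v => ?_; simp only [Module.End.mul_apply, Module.End.one_apply, RootLat.r_apply, RootLat.Q_sub, RootLat.Q_smul, RootLat.Q_subr, RootLat.Q_smulr, RootLat.Q_add, RootLat.Q_addr, RootLat.Q_neg, RootLat.Q_negr, Ch.aa e, Ch.bb e, Ch.cc e, Ch.ab e, Ch.ba e, Ch.bc e, Ch.cb e, Ch.ac e, Ch.ca e, map_add, map_sub, map_neg, map_zsmul]; try module))
    · refine ⟨S.T8 hx e2 hc hs h.fc, fun hV => h.nv ?_⟩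
      exact S.dn hV (b := c) hc.q hc.p hs (by (simp only [Module.End.mul_apply, Module.End.one_apply, RootLat.r_apply, RootLat.Q_sub, RootLat.Q_smul, RootLat.Q_subr, RootLat.Q_smulr, RootLat.Q_add, RootLat.Q_addr, RootLat.Q_neg, RootLat.Q_negr, Ch.aa e, Ch.bb e, Ch.cc e, Ch.ab e, Ch.ba e, Ch.bc e, Ch.cb e, Ch.ac e, Ch.ca e, map_add, map_sub, map_neg, map_zsmul]; try module)) (by (refine LinearMap.ext fun v => ?_; simp only [Module.End.mul_apply, Module.End.one_apply, RootLat.r_apply, RootLat.Q_sub, RootLat.Q_smul, RootLat.Q_subr, RootLat.Q_smulr, RootLat.Q_add, RootLat.Q_addr, RootLat.Q_neg, RootLat.Q_negr, Ch.aa e, Ch.bb e, Ch.cc e, Ch.ab e, Ch.ba e, Ch.bc e, Ch.cb e, Ch.ac e, Ch.ca e, map_add, map_sub, map_neg, map_zsmul]; try module))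
  refine ⟨hb, key.1, hbg, ?_, key.2⟩
  rcases S.ruleM _ b g hy hb key.1 hbg with h3 | h3
  · exact h3
  · exact absurd h3 key.2

/-- the top element of a coset: `V` contains `x r_a r_b r_c` for a frame all of whose roots are inversions -/
theorem top3 {a b c : L} (e : Ch R a b c) (hx : S.V x) (ha : R.P (-(x a))) (hb : R.P (-(x b))) (hc : R.P (-(x c))) :
    S.V (x * R.r b * R.r a * R.r c) := by
  have h1 : S.V (x * R.r b) := S.dn hx (b := b) e.bb e.pb hb rfl rfl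
  have h2 : S.V (x * R.r b * R.r a) := S.dn h1 (b := a) e.aa e.pa (R.P_add ha hb) (by (simp only [Module.End.mul_apply, Module.End.one_apply, RootLat.r_apply, RootLat.Q_sub, RootLat.Q_smul, RootLat.Q_subr, RootLat.Q_smulr, RootLat.Q_add, RootLat.Q_addr, RootLat.Q_neg, RootLat.Q_negr, Ch.aa e, Ch.bb e, Ch.cc e, Ch.ab e, Ch.ba e, Ch.bc e, Ch.cb e, Ch.ac e, Ch.ca e, map_add, map_sub, map_neg, map_zsmul]; try module)) rfl
  exact S.dn h2 (b := c) e.cc e.pc (R.P_add hc hb) (by (simp only [Module.End.mul_apply, Module.End.one_apply, RootLat.r_apply, RootLat.Q_sub, RootLat.Q_smul, RootLat.Q_subr, RootLat.Q_smulr, RootLat.Q_add, RootLat.Q_addr, RootLat.Q_neg, RootLat.Q_negr, Ch.aa e, Ch.bb e, Ch.cc e, Ch.ab e, Ch.ba e, Ch.bc e, Ch.cb e, Ch.ac e, Ch.ca e, map_add, map_sub, map_neg, map_zsmul]; try module)) rfl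

/-- T9': `b = c + f → b'`, `(b',c) = 0` gives `b → b'` at `x r_c` -/
theorem T9' (hx : S.A x) (h : S.Arr x (c + f) b') (hc : S.F x c) (hf : S.F x f) (hcf : R.Q c f = -1)
    (h0 : R.Q b' c = 0) : S.Arr (x * R.r c) (c + f) b' := by
  have hy := S.act hx hc
  have hfb : R.Q f b' = -1 := by
    have := h.q
    simp only [Q_add, R.Q_comm c b', h0] at this
    linarith
  have e : Ch R c f b' := Ch.mk' hc.q hf.q h.fc.q hcf hfb (by rw [R.Q_comm]; exact h0) hc.p hf.p h.fc.p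
  have e2 := S.ch2 hc hf hcf
  have hb : S.F (x * R.r c) (c + f) := S.T10 e2 hc.xp hf.xp h.fb
  have hb' : S.F (x * R.r c) b' := S.T1 hx hc h.fc e.ac
  have hnv : ¬ S.V (x * R.r c * R.r b' * R.r (c + f)) := by
    intro hV
    apply h.nv
    have hu := S.act hy hb'
    have f1 : S.F (x * R.r c * R.r b') (c + f) := S.mkF (by (simp only [RootLat.Q_sub, RootLat.Q_smul, RootLat.Q_subr, RootLat.Q_smulr, RootLat.Q_add, RootLat.Q_addr, RootLat.Q_neg, RootLat.Q_negr, Ch.aa e, Ch.bb e, Ch.cc e, Ch.ab e, Ch.ba e, Ch.bc e, Ch.cb e, Ch.ac e, Ch.ca e]; try norm_num)) (R.P_add e.pa e.pb)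
      (R.P_add hf.xp h.fc.xp) (by (simp only [Module.End.mul_apply, Module.End.one_apply, RootLat.r_apply, RootLat.Q_sub, RootLat.Q_smul, RootLat.Q_subr, RootLat.Q_smulr, RootLat.Q_add, RootLat.Q_addr, RootLat.Q_neg, RootLat.Q_negr, Ch.aa e, Ch.bb e, Ch.cc e, Ch.ab e, Ch.ba e, Ch.bc e, Ch.cb e, Ch.ac e, Ch.ca e, map_add, map_sub, map_neg, map_zsmul]; try module)) hV rfl
    have v2 : S.V (x * R.r c * R.r b' * R.r (f + b')) := S.dn h.v (b := c) e.aa e.pa hf.xp (by (simp only [Module.End.mul_apply, Module.End.one_apply, RootLat.r_apply, RootLat.Q_sub, RootLat.Q_smul, RootLat.Q_subr, RootLat.Q_smulr, RootLat.Q_add, RootLat.Q_addr, RootLat.Q_neg, RootLat.Q_negr, Ch.aa e, Ch.bb e, Ch.cc e, Ch.ab e, Ch.ba e, Ch.bc e, Ch.cb e, Ch.ac e, Ch.ca e, map_add, map_sub, map_neg, map_zsmul]; try module)) (by (refine LinearMap.ext fun v => ?_; simp only [Module.End.mul_apply, Module.End.one_apply, RootLat.r_apply,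 RootLat.Q_sub, RootLat.Q_smul, RootLat.Q_subr, RootLat.Q_smulr, RootLat.Q_add, RootLat.Q_addr, RootLat.Q_neg, RootLat.Q_negr, Ch.aa e, Ch.bb e, Ch.cc e, Ch.ab e, Ch.ba e, Ch.bc e, Ch.cb e, Ch.ac e, Ch.ca e, map_add, map_sub, map_neg, map_zsmul]; try module))
    have f2 : S.F (x * R.r c * R.r b') (f + b') := S.mkF (by (simp only [RootLat.Q_sub, RootLat.Q_smul, RootLat.Q_subr, RootLat.Q_smulr, RootLat.Q_add, RootLat.Q_addr, RootLat.Q_neg, RootLat.Q_negr, Ch.aa e, Ch.bb e, Ch.cc e, Ch.ab e, Ch.ba e, Ch.bc e, Ch.cb e, Ch.ac e, Ch.ca e]; try norm_num)) (R.P_add e.pb e.pc)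
      (R.P_add hc.xp hf.xp) (by (simp only [Module.End.mul_apply, Module.End.one_apply, RootLat.r_apply, RootLat.Q_sub, RootLat.Q_smul, RootLat.Q_subr, RootLat.Q_smulr, RootLat.Q_add, RootLat.Q_addr, RootLat.Q_neg, RootLat.Q_negr, Ch.aa e, Ch.bb e, Ch.cc e, Ch.ab e, Ch.ba e, Ch.bc e, Ch.cb e, Ch.ac e, Ch.ca e, map_add, map_sub, map_neg, map_zsmul]; try module)) v2 rfl
    have v3 := S.ruleO _ _ _ hu f1 f2 (by (simp only [RootLat.Q_sub, RootLat.Q_smul, RootLat.Q_subr, RootLat.Q_smulr, RootLat.Q_add, RootLat.Q_addr, RootLat.Q_neg, RootLat.Q_negr, Ch.aa e, Ch.bb e, Ch.cc e, Ch.ab e, Ch.ba e, Ch.bc e, Ch.cb e, Ch.ac e, Ch.ca e]; try norm_num))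
    have v4 : S.V (x * R.r c * R.r b' * R.r (c + f) * R.r (f + b') * R.r f) :=
      S.dn v3 (b := f) e.bb e.pb hf.xp (by (simp only [Module.End.mul_apply, Module.End.one_apply, RootLat.r_apply, RootLat.Q_sub, RootLat.Q_smul, RootLat.Q_subr, RootLat.Q_smulr, RootLat.Q_add, RootLat.Q_addr, RootLat.Q_neg, RootLat.Q_negr, Ch.aa e, Ch.bb e, Ch.cc e, Ch.ab e, Ch.ba e, Ch.bc e, Ch.cb e, Ch.ac e, Ch.ca e, map_add, map_sub, map_neg, map_zsmul]; try module)) rfl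
    exact S.dn v4 (b := b') e.cc e.pc (R.P_add hc.xp hf.xp) (by (simp only [Module.End.mul_apply, Module.End.one_apply, RootLat.r_apply, RootLat.Q_sub, RootLat.Q_smul, RootLat.Q_subr, RootLat.Q_smulr, RootLat.Q_add, RootLat.Q_addr, RootLat.Q_neg, RootLat.Q_negr, Ch.aa e, Ch.bb e, Ch.cc e, Ch.ab e, Ch.ba e, Ch.bc e, Ch.cb e, Ch.ac e, Ch.ca e, map_add, map_sub, map_neg, map_zsmul]; try module)) (by (refine LinearMap.ext fun v => ?_; simp only [Module.End.mul_apply, Module.End.one_apply, RootLat.r_apply, RootLat.Q_sub, RootLat.Q_smul, RootLat.Q_subr, RootLat.Q_smulr, RootLat.Q_add, RootLat.Q_addr, RootLat.Q_neg, RootLat.Q_negr, Ch.aa e, Ch.bb e, Ch.cc e, Ch.ab e, Ch.ba e, Ch.bc e, Ch.cb e, Ch.ac e, Ch.ca e, map_add, map_sub, map_neg, map_zsmul]; try module))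
  refine ⟨hb, hb', h.q, ?_, hnv⟩
  rcases S.ruleM _ (c + f) b' hy hb hb' h.q with h3 | h3
  · exact h3
  · exact absurd h3 hnv

/-- H1: `c = b + i ∈ F`, `i ∈ I`, `b → b'`, `(i,b') = 0` imply `[b' c] ∉ V` -/
theorem H1 (hx : S.A x) (h : S.Arr x b b') (hi : R.Im x i) (hc : S.F x (b + i)) (h0 : R.Q i b' = 0) :
    ¬ S.V (x * R.r b' * R.r (b + i)) := by
  intro hV
  have hbi : R.Q b i = -1 := by
    have := hc.q
    simp only [Q_add, Q_addr, h.fb.q, hi.q, R.Q_comm i b] at this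
    linarith
  have e : Ch R i b b' := Ch.mk' hi.q h.fb.q h.fc.q (by rw [R.Q_comm]; exact hbi) h.q h0 hi.p h.fb.p h.fc.p
  have hw := S.act hx h.fc
  have f1 : S.F (x * R.r b') (b + i) := S.mkF hc.q hc.p (R.P_add hc.xp h.fc.xp) (by (simp only [Module.End.mul_apply, Module.End.one_apply, RootLat.r_apply, RootLat.Q_sub, RootLat.Q_smul, RootLat.Q_subr, RootLat.Q_smulr, RootLat.Q_add, RootLat.Q_addr, RootLat.Q_neg, RootLat.Q_negr, Ch.aa e, Ch.bb e, Ch.cc e, Ch.ab e, Ch.ba e, Ch.bc e, Ch.cb e, Ch.ac e, Ch.ca e, map_add, map_sub, map_neg, map_zsmul]; try module)) hV rfl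
  have f2 : S.F (x * R.r b') (b + b') := S.mkF (by (simp only [RootLat.Q_sub, RootLat.Q_smul, RootLat.Q_subr, RootLat.Q_smulr, RootLat.Q_add, RootLat.Q_addr, RootLat.Q_neg, RootLat.Q_negr, Ch.aa e, Ch.bb e, Ch.cc e, Ch.ab e, Ch.ba e, Ch.bc e, Ch.cb e, Ch.ac e, Ch.ca e]; try norm_num)) (R.P_add e.pb e.pc) h.fb.xp (by (simp only [Module.End.mul_apply, Module.End.one_apply, RootLat.r_apply, RootLat.Q_sub, RootLat.Q_smul, RootLat.Q_subr, RootLat.Q_smulr, RootLat.Q_add, RootLat.Q_addr, RootLat.Q_neg, RootLat.Q_negr, Ch.aa e, Ch.bb e, Ch.cc e, Ch.ab e, Ch.ba e, Ch.bc e, Ch.cb e, Ch.ac e, Ch.ca e, map_add, map_sub, map_neg, map_zsmul]; try module)) h.v (by (refine LinearMap.ext fun v => ?_; simp only [Module.End.mul_apply, Module.End.one_apply, RootLat.r_apply, RootLat.Q_sub, RootLat.Q_smul, RootLat.Q_subr, RootLat.Q_smulr, RootLat.Q_add, RootLat.Q_addr, RootLat.Q_neg, RootLat.Q_negr, Ch.aa e, Ch.bb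 e, Ch.cc e, Ch.ab e, Ch.ba e, Ch.bc e, Ch.cb e, Ch.ac e, Ch.ca e, map_add, map_sub, map_neg, map_zsmul]; try module))
  have v3 := S.ruleO _ _ _ hw f1 f2 (by (simp only [RootLat.Q_sub, RootLat.Q_smul, RootLat.Q_subr, RootLat.Q_smulr, RootLat.Q_add, RootLat.Q_addr, RootLat.Q_neg, RootLat.Q_negr, Ch.aa e, Ch.bb e, Ch.cc e, Ch.ab e, Ch.ba e, Ch.bc e, Ch.cb e, Ch.ac e, Ch.ca e]; try norm_num))
  -- down b, i, b'
  have v4 : S.V (x * R.r b' * R.r (b + i) * R.r (b + b') * R.r b) :=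
    S.dn v3 (b := b) e.bb e.pb hc.xp (by (simp only [Module.End.mul_apply, Module.End.one_apply, RootLat.r_apply, RootLat.Q_sub, RootLat.Q_smul, RootLat.Q_subr, RootLat.Q_smulr, RootLat.Q_add, RootLat.Q_addr, RootLat.Q_neg, RootLat.Q_negr, Ch.aa e, Ch.bb e, Ch.cc e, Ch.ab e, Ch.ba e, Ch.bc e, Ch.cb e, Ch.ac e, Ch.ca e, map_add, map_sub, map_neg, map_zsmul]; try module)) rfl
  have v5 : S.V (x * R.r b' * R.r (b + i) * R.r (b + b') * R.r b * R.r i) :=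
    S.dn v4 (b := i) e.aa e.pa (R.P_add hc.xp h.fc.xp) (by (simp only [Module.End.mul_apply, Module.End.one_apply, RootLat.r_apply, RootLat.Q_sub, RootLat.Q_smul, RootLat.Q_subr, RootLat.Q_smulr, RootLat.Q_add, RootLat.Q_addr, RootLat.Q_neg, RootLat.Q_negr, Ch.aa e, Ch.bb e, Ch.cc e, Ch.ab e, Ch.ba e, Ch.bc e, Ch.cb e, Ch.ac e, Ch.ca e, map_add, map_sub, map_neg, map_zsmul]; try module)) rfl
  exact h.nv (S.dn v5 (b := b') e.cc e.pc h.fb.xp (by (simp only [Module.End.mul_apply, Module.End.one_apply, RootLat.r_apply, RootLat.Q_sub, RootLat.Q_smul, RootLat.Q_subr, RootLat.Q_smulr, RootLat.Q_add, RootLat.Q_addr, RootLat.Q_neg, RootLat.Q_negr, Ch.aa e, Ch.bb e, Ch.cc e, Ch.ab e, Ch.ba e, Ch.bc e, Ch.cb e, Ch.ac e, Ch.ca e, map_add, map_sub, map_neg, map_zsmul]; try module)) (by (refine LinearMap.ext fun v => ?_; simp only [Module.End.mul_apply, Module.End.one_apply, RootLat.r_apply, RootLat.Q_sub,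 RootLat.Q_smul, RootLat.Q_subr, RootLat.Q_smulr, RootLat.Q_add, RootLat.Q_addr, RootLat.Q_neg, RootLat.Q_negr, Ch.aa e, Ch.bb e, Ch.cc e, Ch.ab e, Ch.ba e, Ch.bc e, Ch.cb e, Ch.ac e, Ch.ca e, map_add, map_sub, map_neg, map_zsmul]; try module)))

/-- H2: `b → b' = c + i`, `c ∈ F`, `i ∈ I`, `(i,b) = 0` imply `[c b] ∉ V` -/
theorem H2 (hx : S.A x) (h : S.Arr x b (c + i)) (hc : S.F x c) (hi : R.Im x i) (h0 : R.Q i b = 0) :
    ¬ S.V (x * R.r c * R.r b) := by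
  intro hV
  have hci : R.Q c i = -1 := by
    have := h.fc.q
    simp only [Q_add, Q_addr, hc.q, hi.q, R.Q_comm i c] at this
    linarith
  have hbc : R.Q b c = -1 := by
    have := h.q
    simp only [Q_addr, R.Q_comm b i, h0] at this
    linarith
  have e : Ch R i c b := Ch.mk' hi.q hc.q h.fb.q (by rw [R.Q_comm]; exact hci) (by rw [R.Q_comm]; exact hbc) h0
    hi.p hc.p h.fb.p
  have e2 : Ch2 R c i := Ch2.mk' hc.q hi.q hci hc.p hi.p
  have hz := S.act hx hc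
  have f1 : S.F (x * R.r c) b := S.mkF h.fb.q h.fb.p (R.P_add h.fb.xp hc.xp) (by (simp only [Module.End.mul_apply, Module.End.one_apply, RootLat.r_apply, RootLat.Q_sub, RootLat.Q_smul, RootLat.Q_subr, RootLat.Q_smulr, RootLat.Q_add, RootLat.Q_addr, RootLat.Q_neg, RootLat.Q_negr, Ch.aa e, Ch.bb e, Ch.cc e, Ch.ab e, Ch.ba e, Ch.bc e, Ch.cb e, Ch.ac e, Ch.ca e, map_add, map_sub, map_neg, map_zsmul]; try module)) hV rfl
  have f2 : S.F (x * R.r c) i := S.T8 hx e2 hc hi.xn h.fc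
  have v3 := S.ruleO _ _ _ hz f2 f1 h0
  exact h.nv (S.dn v3 (b := c + b) (by (simp only [RootLat.Q_sub, RootLat.Q_smul, RootLat.Q_subr, RootLat.Q_smulr, RootLat.Q_add, RootLat.Q_addr, RootLat.Q_neg, RootLat.Q_negr, Ch.aa e, Ch.bb e, Ch.cc e, Ch.ab e, Ch.ba e, Ch.bc e, Ch.cb e, Ch.ac e, Ch.ca e]; try norm_num)) (R.P_add e.pb e.pc) hi.xn (by (simp only [Module.End.mul_apply, Module.End.one_apply, RootLat.r_apply, RootLat.Q_sub, RootLat.Q_smul, RootLat.Q_subr, RootLat.Q_smulr, RootLat.Q_add, RootLat.Q_addr, RootLat.Q_neg, RootLat.Q_negr, Ch.aa e, Ch.bb e, Ch.cc e, Ch.ab e, Ch.ba e, Ch.bc e, Ch.cb e, Ch.ac e, Ch.ca e, map_add, map_sub, map_neg, map_zsmul]; try module)) (by (refine LinearMap.ext fun v => ?_; simp only [Module.End.mul_apply, Module.End.one_apply, RootLat.r_apply, RootLat.Q_sub, RootLat.Q_smul, RootLat.Q_subr, RootLat.Q_smulr, RootLat.Q_add, RootLat.Q_addr, RootLat.Q_neg, RootLat.Q_negr,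 Ch.aa e, Ch.bb e, Ch.cc e, Ch.ab e, Ch.ba e, Ch.bc e, Ch.cb e, Ch.ac e, Ch.ca e, map_add, map_sub, map_neg, map_zsmul]; try module)))

/-- E3' -/
theorem E3 (hx : S.A x) (h : S.Arr x b b') (hc : S.F x c) (h0 : R.Q b' c = 0) (hbc : R.Q c b = -1)
    (hv : S.V (x * R.r c * R.r b)) : S.V (x * R.r c * R.r b * R.r b') := by
  have e : Ch R c b b' := Ch.mk' hc.q h.fb.q h.fc.q hbc h.q (by rw [R.Q_comm]; exact h0) hc.p h.fb.p h.fc.p
  have hz := S.act hx hc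
  have f1 : S.F (x * R.r c) b' := S.T1 hx hc h.fc e.ac
  have f2 : S.F (x * R.r c) b := S.T2 hc h.fb hbc hv
  rcases S.ruleM _ b b' hz f2 f1 h.q with h3 | h3
  · exact h3
  · exact absurd (S.dn h3 (b := c + b) (by (simp only [RootLat.Q_sub, RootLat.Q_smul, RootLat.Q_subr, RootLat.Q_smulr, RootLat.Q_add, RootLat.Q_addr, RootLat.Q_neg, RootLat.Q_negr, Ch.aa e, Ch.bb e, Ch.cc e, Ch.ab e, Ch.ba e, Ch.bc e, Ch.cb e, Ch.ac e, Ch.ca e]; try norm_num)) (R.P_add e.pa e.pb) hc.xp (by (simp only [Module.End.mul_apply, Module.End.one_apply, RootLat.r_apply, RootLat.Q_sub, RootLat.Q_smul, RootLat.Q_subr, RootLat.Q_smulr, RootLat.Q_add, RootLat.Q_addr, RootLat.Q_neg, RootLat.Q_negr, Ch.aa e, Ch.bb e, Ch.cc e, Ch.ab e, Ch.ba e, Ch.bc e, Ch.cb e, Ch.ac e, Ch.ca e, map_add, map_sub, map_neg, map_zsmul]; try module)) (by (refine LinearMap.ext fun v => ?_; simp only [Module.End.mul_apply, Module.End.one_apply,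 RootLat.r_apply, RootLat.Q_sub, RootLat.Q_smul, RootLat.Q_subr, RootLat.Q_smulr, RootLat.Q_add, RootLat.Q_addr, RootLat.Q_neg, RootLat.Q_negr, Ch.aa e, Ch.bb e, Ch.cc e, Ch.ab e, Ch.ba e, Ch.bc e, Ch.cb e, Ch.ac e, Ch.ca e, map_add, map_sub, map_neg, map_zsmul]; try module))) h.nv

/-- Path2 -/
theorem Path2 (hx : S.A x) (h1 : S.Arr x a b) (h2 : S.Arr x b c) (h0 : R.Q a c = 1) : R.Im x (a - c) := by
  have hq : R.Q (a - c) (a - c) = 2 := by
    simp only [Q_sub, Q_subr, h1.fb.q, h2.fc.q, R.Q_comm c a, h0]; norm_num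
  have hdb : R.Q (a - c) b = 0 := by
    simp only [Q_sub, h1.q, R.Q_comm c b, h2.q]; norm_num
  have hdc : R.Q (a - c) c = -1 := by
    simp only [Q_sub, h0, h2.fc.q]; norm_num
  rcases R.P_root _ hq with hp | hp
  · rcases S.sgn (S.AV x hx) hq with hs | hs
    · exfalso
      obtain ⟨d, rfl⟩ : ∃ d, a = d + c := ⟨a - c, by abel⟩
      simp only [add_sub_cancel_right] at *
      have e : Ch R d c b := Ch.mk' hq h2.fc.q h1.fc.q hdc (by rw [R.Q_comm]; exact h2.q) hdb hp h2.fc.p h1.fc.p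
      have v1 : S.V (x * R.r (d + c) * R.r b * R.r (b + c)) :=
        S.dn h1.v (b := b + c) (by (simp only [RootLat.Q_sub, RootLat.Q_smul, RootLat.Q_subr, RootLat.Q_smulr, RootLat.Q_add, RootLat.Q_addr, RootLat.Q_neg, RootLat.Q_negr, Ch.aa e, Ch.bb e, Ch.cc e, Ch.ab e, Ch.ba e, Ch.bc e, Ch.cb e, Ch.ac e, Ch.ca e]; try norm_num)) (R.P_add e.pc e.pb) hs (by (simp only [Module.End.mul_apply, Module.End.one_apply, RootLat.r_apply, RootLat.Q_sub, RootLat.Q_smul, RootLat.Q_subr, RootLat.Q_smulr, RootLat.Q_add, RootLat.Q_addr, RootLat.Q_neg, RootLat.Q_negr, Ch.aa e, Ch.bb e, Ch.cc e, Ch.ab e, Ch.ba e, Ch.bc e, Ch.cb e, Ch.ac e, Ch.ca e, map_add, map_sub, map_neg, map_zsmul]; try module)) rfl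
      exact h2.nv (S.dn v1 (b := d) e.aa e.pa h1.fb.xp (by (simp only [Module.End.mul_apply, Module.End.one_apply, RootLat.r_apply, RootLat.Q_sub, RootLat.Q_smul, RootLat.Q_subr, RootLat.Q_smulr, RootLat.Q_add, RootLat.Q_addr, RootLat.Q_neg, RootLat.Q_negr, Ch.aa e, Ch.bb e, Ch.cc e, Ch.ab e, Ch.ba e, Ch.bc e, Ch.cb e, Ch.ac e, Ch.ca e, map_add, map_sub, map_neg, map_zsmul]; try module)) (by (refine LinearMap.ext fun v => ?_; simp only [Module.End.mul_apply, Module.End.one_apply, RootLat.r_apply, RootLat.Q_sub, RootLat.Q_smul, RootLat.Q_subr, RootLat.Q_smulr, RootLat.Q_add, RootLat.Q_addr, RootLat.Q_neg, RootLat.Q_negr, Ch.aa e, Ch.bb e, Ch.cc e, Ch.ab e, Ch.ba e, Ch.bc e, Ch.cb e, Ch.ac e, Ch.ca e, map_add, map_sub, map_neg, map_zsmul]; try module)))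
    · exact ⟨hq, hp, hs⟩
  · exfalso
    obtain ⟨k, rfl⟩ : ∃ k, c = a + k := ⟨c - a, by abel⟩
    have hk : -(a - (a + k)) = k := by abel
    have hk2 : a - (a + k) = -k := by abel
    rw [hk] at hp
    simp only [hk2, Q_neg, Q_negr, neg_neg] at hq hdb hdc
    have hkb : R.Q k b = 0 := by linarith
    have hka : R.Q a k = -1 := by
      have := h2.fc.q
      simp only [Q_add, Q_addr, h1.fb.q, hq, R.Q_comm k a] at this
      linarith
    have e : Ch R k a b := Ch.mk' hq h1.fb.q h1.fc.q (by rw [R.Q_comm]; exact hka) h1.q hkb hp h1.fb.p h1.fc.p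
    have e2 : Ch2 R a k := Ch2.mk' h1.fb.q hq hka h1.fb.p hp
    rcases S.sgn (S.AV x hx) hq with hs | hs
    · have v1 : S.V (x * R.r b * R.r (a + k) * R.r a) := S.dn h2.v (b := a) e.bb e.pb hs (by (simp only [Module.End.mul_apply, Module.End.one_apply, RootLat.r_apply, RootLat.Q_sub, RootLat.Q_smul, RootLat.Q_subr, RootLat.Q_smulr, RootLat.Q_add, RootLat.Q_addr, RootLat.Q_neg, RootLat.Q_negr, Ch.aa e, Ch.bb e, Ch.cc e, Ch.ab e, Ch.ba e, Ch.bc e, Ch.cb e, Ch.ac e, Ch.ca e, map_add, map_sub, map_neg, map_zsmul]; try module)) rfl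
      exact h1.nv (S.dn v1 (b := k) e.aa e.pa (R.P_add h1.fc.xp h2.fc.xp) (by (simp only [Module.End.mul_apply, Module.End.one_apply, RootLat.r_apply, RootLat.Q_sub, RootLat.Q_smul, RootLat.Q_subr, RootLat.Q_smulr, RootLat.Q_add, RootLat.Q_addr, RootLat.Q_neg, RootLat.Q_negr, Ch.aa e, Ch.bb e, Ch.cc e, Ch.ab e, Ch.ba e, Ch.bc e, Ch.cb e, Ch.ac e, Ch.ca e, map_add, map_sub, map_neg, map_zsmul]; try module)) (by (refine LinearMap.ext fun v => ?_; simp only [Module.End.mul_apply, Module.End.one_apply, RootLat.r_apply, RootLat.Q_sub, RootLat.Q_smul, RootLat.Q_subr, RootLat.Q_smulr, RootLat.Q_add, RootLat.Q_addr, RootLat.Q_neg, RootLat.Q_negr, Ch.aa e, Ch.bb e, Ch.cc e, Ch.ab e, Ch.ba e, Ch.bc e, Ch.cb e, Ch.ac e, Ch.ca e, map_add, map_sub, map_neg, map_zsmul]; try module)))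
    · have hz := S.act hx h1.fb
      have f1 : S.F (x * R.r a) b := S.T2 h1.fb h1.fc h1.q h1.v
      have f2 : S.F (x * R.r a) k := S.T8 hx e2 h1.fb hs h2.fc
      have v1 := S.ruleO _ _ _ hz f2 f1 hkb
      exact h2.nv (S.dn v1 (b := a + b) (by (simp only [RootLat.Q_sub, RootLat.Q_smul, RootLat.Q_subr, RootLat.Q_smulr, RootLat.Q_add, RootLat.Q_addr, RootLat.Q_neg, RootLat.Q_negr, Ch.aa e, Ch.bb e, Ch.cc e, Ch.ab e, Ch.ba e, Ch.bc e, Ch.cb e, Ch.ac e, Ch.ca e]; try norm_num)) (R.P_add e.pb e.pc) hs (by (simp only [Module.End.mul_apply, Module.End.one_apply, RootLat.r_apply, RootLat.Q_sub, RootLat.Q_smul, RootLat.Q_subr, RootLat.Q_smulr, RootLat.Q_add, RootLat.Q_addr, RootLat.Q_neg, RootLat.Q_negr, Ch.aa e, Ch.bb e, Ch.cc e, Ch.ab e, Ch.ba e, Ch.bc e, Ch.cb e, Ch.ac e, Ch.ca e, map_add, map_sub, map_neg, map_zsmul]; try module)) (by (refine LinearMap.ext fun v => ?_; simp only [Module.End.mul_apply,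 Module.End.one_apply, RootLat.r_apply, RootLat.Q_sub, RootLat.Q_smul, RootLat.Q_subr, RootLat.Q_smulr, RootLat.Q_add, RootLat.Q_addr, RootLat.Q_neg, RootLat.Q_negr, Ch.aa e, Ch.bb e, Ch.cc e, Ch.ab e, Ch.ba e, Ch.bc e, Ch.cb e, Ch.ac e, Ch.ca e, map_add, map_sub, map_neg, map_zsmul]; try module)))

/-- E56: `b0 = bm + i`, `i ∈ I`, `b0 + g ∈ F`, `(bm, b0 + g) = 0` give `[b0 g bm] ∈ V` -/
theorem E56 (hx : S.A x) (hb : S.F x b) (hi : R.Im x i) (hbi : S.F x (b + i)) (hg : R.Q g g = 2) (pg : R.P g)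
    (hn : S.F x (b + i + g)) (h0 : R.Q b (b + i + g) = 0) :
    S.V (x * R.r (b + i) * R.r g * R.r b) := by
  have hqbi : R.Q b i = -1 := by
    have := hbi.q
    simp only [Q_add, Q_addr, hb.q, hi.q, R.Q_comm i b] at this
    linarith
  have hqbg : R.Q b g = -1 := by
    simp only [Q_addr, hb.q, hqbi] at h0
    linarith
  have hqig : R.Q i g = 0 := by
    have := hn.q
    simp only [Q_add, Q_addr, hb.q, hi.q, hg, R.Q_comm i b, R.Q_comm g b, R.Q_comm g i, hqbi, hqbg] at this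
    linarith
  have e : Ch R i b g := Ch.mk' hi.q hb.q hg (by rw [R.Q_comm]; exact hqbi) hqbg hqig hi.p hb.p pg
  have e2 : Ch2 R b i := Ch2.mk' hb.q hi.q hqbi hb.p hi.p
  have e3 : Ch2 R (b + i) g := Ch2.mk' hbi.q hg (by (simp only [RootLat.Q_sub, RootLat.Q_smul, RootLat.Q_subr, RootLat.Q_smulr, RootLat.Q_add, RootLat.Q_addr, RootLat.Q_neg, RootLat.Q_negr, Ch.aa e, Ch.bb e, Ch.cc e, Ch.ab e, Ch.ba e, Ch.bc e, Ch.cb e, Ch.ac e, Ch.ca e]; try norm_num)) hbi.p pg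
  have hy := S.act hx hbi
  have fb : S.F (x * R.r (b + i)) b := S.T3 hx e2 hb hi.xn hbi
  have sbg : R.P (x (b + g)) := R.P_cast (R.P_add hn.xp hi.xn) (by (simp only [Module.End.mul_apply, Module.End.one_apply, RootLat.r_apply, RootLat.Q_sub, RootLat.Q_smul, RootLat.Q_subr, RootLat.Q_smulr, RootLat.Q_add, RootLat.Q_addr, RootLat.Q_neg, RootLat.Q_negr, Ch.aa e, Ch.bb e, Ch.cc e, Ch.ab e, Ch.ba e, Ch.bc e, Ch.cb e, Ch.ac e, Ch.ca e, map_add, map_sub, map_neg, map_zsmul]; try module))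
  -- it suffices that `b + g ∈ F`
  have key : S.V (x * R.r (b + g)) → S.V (x * R.r (b + i) * R.r g * R.r b) := by
    intro hV
    have f1 : S.F x (b + g) := ⟨by (simp only [RootLat.Q_sub, RootLat.Q_smul, RootLat.Q_subr, RootLat.Q_smulr, RootLat.Q_add, RootLat.Q_addr, RootLat.Q_neg, RootLat.Q_negr, Ch.aa e, Ch.bb e, Ch.cc e, Ch.ab e, Ch.ba e, Ch.bc e, Ch.cb e, Ch.ac e, Ch.ca e]; try norm_num), R.P_add e.pb e.pc, sbg, hV⟩
    have v1 := S.ruleO _ _ _ hx hbi f1 (by (simp only [RootLat.Q_sub, RootLat.Q_smul, RootLat.Q_subr, RootLat.Q_smulr, RootLat.Q_add, RootLat.Q_addr, RootLat.Q_neg, RootLat.Q_negr, Ch.aa e, Ch.bb e, Ch.cc e, Ch.ab e, Ch.ba e, Ch.bc e, Ch.cb e, Ch.ac e, Ch.ca e]; try norm_num))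
    exact S.dn v1 (b := g) e.cc e.pc hi.xn (by (simp only [Module.End.mul_apply, Module.End.one_apply, RootLat.r_apply, RootLat.Q_sub, RootLat.Q_smul, RootLat.Q_subr, RootLat.Q_smulr, RootLat.Q_add, RootLat.Q_addr, RootLat.Q_neg, RootLat.Q_negr, Ch.aa e, Ch.bb e, Ch.cc e, Ch.ab e, Ch.ba e, Ch.bc e, Ch.cb e, Ch.ac e, Ch.ca e, map_add, map_sub, map_neg, map_zsmul]; try module)) (by (refine LinearMap.ext fun v => ?_; simp only [Module.End.mul_apply, Module.End.one_apply, RootLat.r_apply, RootLat.Q_sub, RootLat.Q_smul, RootLat.Q_subr, RootLat.Q_smulr, RootLat.Q_add, RootLat.Q_addr, RootLat.Q_neg, RootLat.Q_negr, Ch.aa e, Ch.bb e, Ch.cc e, Ch.ab e, Ch.ba e, Ch.bc e, Ch.cb e, Ch.ac e, Ch.ca e, map_add, map_sub, map_neg, map_zsmul]; try module))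
  rcases S.sgn (S.AV x hx) hg with hs | hs
  · have fg : S.F (x * R.r (b + i)) g := S.T9 e3 hs hn
    rcases S.ruleM _ g b hy fg fb (by (simp only [RootLat.Q_sub, RootLat.Q_smul, RootLat.Q_subr, RootLat.Q_smulr, RootLat.Q_add, RootLat.Q_addr, RootLat.Q_neg, RootLat.Q_negr, Ch.aa e, Ch.bb e, Ch.cc e, Ch.ab e, Ch.ba e, Ch.bc e, Ch.cb e, Ch.ac e, Ch.ca e]; try norm_num)) with h3 | h3
    · exact h3
    · apply key
      have hz := S.act hy fg
      have f1 : S.F (x * R.r (b + i) * R.r g) (b + i) := S.mkF hbi.q hbi.p hs (by (simp only [Module.End.mul_apply, Module.End.one_apply, RootLat.r_apply, RootLat.Q_sub, RootLat.Q_smul, RootLat.Q_subr, RootLat.Q_smulr, RootLat.Q_add, RootLat.Q_addr, RootLat.Q_neg, RootLat.Q_negr, Ch.aa e, Ch.bb e, Ch.cc e, Ch.ab e, Ch.ba e, Ch.bc e, Ch.cb e, Ch.ac e, Ch.ca e, map_add, map_sub, map_neg, map_zsmul]; try module)) hn.v (by (refine LinearMap.ext fun v => ?_; simp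 only [Module.End.mul_apply, Module.End.one_apply, RootLat.r_apply, RootLat.Q_sub, RootLat.Q_smul, RootLat.Q_subr, RootLat.Q_smulr, RootLat.Q_add, RootLat.Q_addr, RootLat.Q_neg, RootLat.Q_negr, Ch.aa e, Ch.bb e, Ch.cc e, Ch.ab e, Ch.ba e, Ch.bc e, Ch.cb e, Ch.ac e, Ch.ca e, map_add, map_sub, map_neg, map_zsmul]; try module))
      have f2 : S.F (x * R.r (b + i) * R.r g) (b + g) := S.mkF (by (simp only [RootLat.Q_sub, RootLat.Q_smul, RootLat.Q_subr, RootLat.Q_smulr, RootLat.Q_add, RootLat.Q_addr, RootLat.Q_neg, RootLat.Q_negr, Ch.aa e, Ch.bb e, Ch.cc e, Ch.ab e, Ch.ba e, Ch.bc e, Ch.cb e, Ch.ac e, Ch.ca e]; try norm_num)) (R.P_add e.pb e.pc) hi.xn (by (simp only [Module.End.mul_apply, Module.End.one_apply, RootLat.r_apply, RootLat.Q_sub, RootLat.Q_smul, RootLat.Q_subr, RootLat.Q_smulr, RootLat.Q_add, RootLat.Q_addr, RootLat.Q_neg, RootLat.Q_negr, Ch.aa e, Ch.bb e, Ch.cc e, Ch.ab e, Ch.ba e, Ch.bc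 e, Ch.cb e, Ch.ac e, Ch.ca e, map_add, map_sub, map_neg, map_zsmul]; try module)) h3 (by (refine LinearMap.ext fun v => ?_; simp only [Module.End.mul_apply, Module.End.one_apply, RootLat.r_apply, RootLat.Q_sub, RootLat.Q_smul, RootLat.Q_subr, RootLat.Q_smulr, RootLat.Q_add, RootLat.Q_addr, RootLat.Q_neg, RootLat.Q_negr, Ch.aa e, Ch.bb e, Ch.cc e, Ch.ab e, Ch.ba e, Ch.bc e, Ch.cb e, Ch.ac e, Ch.ca e, map_add, map_sub, map_neg, map_zsmul]; try module))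
      have v1 := S.ruleO _ _ _ hz f1 f2 (by (simp only [RootLat.Q_sub, RootLat.Q_smul, RootLat.Q_subr, RootLat.Q_smulr, RootLat.Q_add, RootLat.Q_addr, RootLat.Q_neg, RootLat.Q_negr, Ch.aa e, Ch.bb e, Ch.cc e, Ch.ab e, Ch.ba e, Ch.bc e, Ch.cb e, Ch.ac e, Ch.ca e]; try norm_num))
      exact S.dn v1 (b := i) e.aa e.pa hn.xp (by (simp only [Module.End.mul_apply, Module.End.one_apply, RootLat.r_apply, RootLat.Q_sub, RootLat.Q_smul, RootLat.Q_subr, RootLat.Q_smulr, RootLat.Q_add, RootLat.Q_addr, RootLat.Q_neg, RootLat.Q_negr, Ch.aa e, Ch.bb e, Ch.cc e, Ch.ab e, Ch.ba e, Ch.bc e, Ch.cb e, Ch.ac e, Ch.ca e, map_add, map_sub, map_neg, map_zsmul]; try module)) (by (refine LinearMap.ext fun v => ?_; simp only [Module.End.mul_apply, Module.End.one_apply, RootLat.r_apply, RootLat.Q_sub, RootLat.Q_smul, RootLat.Q_subr, RootLat.Q_smulr, RootLat.Q_add, RootLat.Q_addr, RootLat.Q_neg, RootLat.Q_negr, Ch.aa e,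 Ch.bb e, Ch.cc e, Ch.ab e, Ch.ba e, Ch.bc e, Ch.cb e, Ch.ac e, Ch.ca e, map_add, map_sub, map_neg, map_zsmul]; try module))
  · have fg : S.F (x * R.r (b + i)) g := S.T8 hx e3 hbi hs hn
    rcases S.ruleM _ g b hy fg fb (by (simp only [RootLat.Q_sub, RootLat.Q_smul, RootLat.Q_subr, RootLat.Q_smulr, RootLat.Q_add, RootLat.Q_addr, RootLat.Q_neg, RootLat.Q_negr, Ch.aa e, Ch.bb e, Ch.cc e, Ch.ab e, Ch.ba e, Ch.bc e, Ch.cb e, Ch.ac e, Ch.ca e]; try norm_num)) with h3 | h3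
    · exact h3
    · apply key
      have v1 : S.V (x * R.r (b + i) * R.r b * R.r g * R.r i) := S.dn h3 (b := i) e.aa e.pa hbi.xp (by (simp only [Module.End.mul_apply, Module.End.one_apply, RootLat.r_apply, RootLat.Q_sub, RootLat.Q_smul, RootLat.Q_subr, RootLat.Q_smulr, RootLat.Q_add, RootLat.Q_addr, RootLat.Q_neg, RootLat.Q_negr, Ch.aa e, Ch.bb e, Ch.cc e, Ch.ab e, Ch.ba e, Ch.bc e, Ch.cb e, Ch.ac e, Ch.ca e, map_add, map_sub, map_neg, map_zsmul]; try module)) rfl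
      exact S.dn (w := x * R.r (b + g)) v1 (b := b) e.bb e.pb hs (by (simp only [Module.End.mul_apply, Module.End.one_apply, RootLat.r_apply, RootLat.Q_sub, RootLat.Q_smul, RootLat.Q_subr, RootLat.Q_smulr, RootLat.Q_add, RootLat.Q_addr, RootLat.Q_neg, RootLat.Q_negr, Ch.aa e, Ch.bb e, Ch.cc e, Ch.ab e, Ch.ba e, Ch.bc e, Ch.cb e, Ch.ac e, Ch.ca e, map_add, map_sub, map_neg, map_zsmul]; try module)) (by (refine LinearMap.ext fun v => ?_; simp only [Module.End.mul_apply, Module.End.one_apply, RootLat.r_apply, RootLat.Q_sub, RootLat.Q_smul, RootLat.Q_subr, RootLat.Q_smulr, RootLat.Q_add, RootLat.Q_addr, RootLat.Q_neg, RootLat.Q_negr, Ch.aa e, Ch.bb e, Ch.cc e, Ch.ab e, Ch.ba e, Ch.bc e, Ch.cb e, Ch.ac e, Ch.ca e, map_add, map_sub, map_neg, map_zsmul]; try module))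

/-- E6' -/
theorem E6 (hx : S.A x) (hc : S.F x c) (hf : R.Q f f = 2) (hi : R.Im x i) (h1 : S.F x (c + f)) (h2 : S.F x (c + i))
    (pf : R.P f) (sf : R.P (x f)) (h0 : R.Q (c + f) (c + i) = 0) : S.V (x * R.r c * R.r i * R.r (c + f)) := by
  have hcf : R.Q c f = -1 := by
    have := h1.q
    simp only [Q_add, Q_addr, hc.q, hf, R.Q_comm f c] at this
    linarith
  have hci : R.Q c i = -1 := by
    have := h2.q
    simp only [Q_add, Q_addr, hc.q, hi.q, R.Q_comm i c] at this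
    linarith
  have hfi : R.Q f i = 0 := by
    simp only [Q_add, Q_addr, hc.q, R.Q_comm f c, hcf, hci] at h0
    linarith
  have e : Ch R f c i := Ch.mk' hf hc.q hi.q (by rw [R.Q_comm]; exact hcf) hci hfi pf hc.p hi.p
  have v1 := S.ruleO _ _ _ hx h1 h2 (by (simp only [RootLat.Q_sub, RootLat.Q_smul, RootLat.Q_subr, RootLat.Q_smulr, RootLat.Q_add, RootLat.Q_addr, RootLat.Q_neg, RootLat.Q_negr, Ch.aa e, Ch.bb e, Ch.cc e, Ch.ab e, Ch.ba e, Ch.bc e, Ch.cb e, Ch.ac e, Ch.ca e]; try norm_num))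
  exact S.dn v1 (b := f) e.aa e.pa hi.xn (by (simp only [Module.End.mul_apply, Module.End.one_apply, RootLat.r_apply, RootLat.Q_sub, RootLat.Q_smul, RootLat.Q_subr, RootLat.Q_smulr, RootLat.Q_add, RootLat.Q_addr, RootLat.Q_neg, RootLat.Q_negr, Ch.aa e, Ch.bb e, Ch.cc e, Ch.ab e, Ch.ba e, Ch.bc e, Ch.cb e, Ch.ac e, Ch.ca e, map_add, map_sub, map_neg, map_zsmul]; try module)) (by (refine LinearMap.ext fun v => ?_; simp only [Module.End.mul_apply, Module.End.one_apply, RootLat.r_apply, RootLat.Q_sub, RootLat.Q_smul, RootLat.Q_subr, RootLat.Q_smulr, RootLat.Q_add, RootLat.Q_addr, RootLat.Q_neg, RootLat.Q_negr, Ch.aa e, Ch.bb e, Ch.cc e, Ch.ab e, Ch.ba e, Ch.bc e, Ch.cb e, Ch.ac e, Ch.ca e, map_add, map_sub, map_neg, map_zsmul]; try module))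

end Sys

end Pool.Agent.H11.ZDE
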