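import Pool.Agent.H11.ZDE.Loc2

/-!
# Paths of arrows
-/

set_option linter.unusedSimpArgs false
set_option linter.unusedVariables false

namespace Pool.Agent.H11.ZDE

open RootLat

variable {L : Type*} [AddCommGroup L] {R : RootLat L}

theorem exists_last {p : ℕ → Prop} {n : ℕ} (hn : 1 < n) (h : p 1) :
    ∃ m, 1 ≤ m ∧ m < n ∧ p m ∧ ∀ j, m < j → j < n → ¬ p j := by
  induction n with
  | zero => omega
  | succ n ih =>
    by_cases hp : p n
    · exact ⟨n, by omega, by omega, hp, fun j h1 h2 => by omega⟩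
    · have h1 : 1 < n := by
        rcases Nat.lt_or_ge 1 n with h1 | h1
        · exact h1
        · have : n = 1 := by omega
          subst this
          exact absurd h hp
      obtain ⟨m, h2, h3, h4, h5⟩ := ih h1
      refine ⟨m, h2, by omega, h4, fun j h6 h7 => ?_⟩
      rcases Nat.lt_or_ge j n with h8 | h8
      · exact h5 j h6 h8
      · have : j = n := by omega
        subst this
        exact hp

theorem exists_first {p : ℕ → Prop} {n : ℕ} (hn : 1 ≤ n) (h : p n) :
    ∃ m, 1 ≤ m ∧ m ≤ n ∧ p m ∧ ∀ j, 1 ≤ j → j < m → ¬ p j := by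
  classical
  have hex : ∃ m, 1 ≤ m ∧ p m := ⟨n, hn, h⟩
  refine ⟨Nat.find hex, (Nat.find_spec hex).1, Nat.find_min' hex ⟨hn, h⟩, (Nat.find_spec hex).2, ?_⟩
  intro j h1 h2 h3
  exact Nat.find_min hex h2 ⟨h1, h3⟩

namespace Sys

variable {S : Sys R} {x y : Module.End ℤ L} {a b c t : L} {m n : ℕ}

theorem Arr.ne (h : S.Arr x b c) : b ≠ c := by
  rintro rfl
  have := h.q
  rw [h.fb.q] at this
  norm_num at this

theorem Pth.one (h : S.Arr x b c) : S.Pth x 1 b c :=
  ⟨fun j => if j = 0 then b else c, by simp, by simp, fun j hj => by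
    have : j = 0 := by omega
    subst this
    simpa using h⟩

theorem Pth.sub {f : ℕ → L} (hf : ∀ j < n, S.Arr x (f j) (f (j + 1))) {i j : ℕ} (h1 : i ≤ j) (h2 : j ≤ n) :
    S.Pth x (j - i) (f i) (f j) :=
  ⟨fun k => f (i + k), by simp, by show f (i + (j - i)) = f j; congr 1; omega, fun k hk => hf (i + k) (by omega)⟩

theorem Pth.trans (h1 : S.Pth x m a b) (h2 : S.Pth x n b c) : S.Pth x (m + n) a c := by
  obtain ⟨f, hf0, hfm, hf⟩ := h1
  obtain ⟨g, hg0, hgn, hg⟩ := h2
  refine ⟨fun k => if k ≤ m then f k else g (k - m), by simp [hf0], ?_, ?_⟩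
  · by_cases h : n = 0
    · subst h
      simp only [add_zero, le_refl, if_true]
      rw [hfm, ← hg0, hgn]
    · show (if m + n ≤ m then f (m + n) else g (m + n - m)) = c
      rw [if_neg (by omega)]
      rw [← hgn]
      congr 1
      omega
  · intro j hj
    show S.Arr x (if j ≤ m then f j else g (j - m)) (if j + 1 ≤ m then f (j + 1) else g (j + 1 - m))
    rcases Nat.lt_or_ge j m with h | h
    · rw [if_pos (by omega), if_pos (by omega)]
      exact hf j h
    · rcases Nat.eq_or_lt_of_le h with h | h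
      · subst h
        rw [if_pos le_rfl, if_neg (by omega), hfm, ← hg0]
        have := hg 0 (by omega)
        have e : m + 1 - m = 0 + 1 := by omega
        rw [e]
        exact this
      · rw [if_neg (by omega), if_neg (by omega)]
        have := hg (j - m) (by omega)
        have e : j + 1 - m = j - m + 1 := by omega
        rw [e]
        exact this

theorem Reach.one (h : S.Arr x b c) : S.Reach x b c := ⟨1, one_pos, Pth.one h⟩

theorem Reach.trans (h1 : S.Reach x a b) (h2 : S.Reach x b c) : S.Reach x a c := by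
  obtain ⟨m, hm, h1⟩ := h1
  obtain ⟨n, hn, h2⟩ := h2
  exact ⟨m + n, by omega, h1.trans h2⟩

/-- a path `f m → … → f (n-1) → t` -/
theorem reach_last {f : ℕ → L} (hf : ∀ j, m ≤ j → j < n → S.Arr x (f j) (f (j + 1))) (hmn : m ≤ n)
    (ht : S.Arr x (f n) t) : S.Reach x (f m) t := by
  refine ⟨n - m + 1, by omega, Pth.trans (b := f n) ⟨fun k => f (m + k), by simp,
    by show f (m + (n - m)) = f n; congr 1; omega, fun k hk => hf (m + k) (by omega) (by omega)⟩ (Pth.one ht)⟩

theorem Pth.fb (h : S.Pth x n a b) (hn : 0 < n) : S.F x a := by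
  obtain ⟨f, hf0, hfm, hf⟩ := h
  rw [← hf0]
  exact (hf 0 hn).fb

theorem Pth.fc (h : S.Pth x n a b) (hn : 0 < n) : S.F x b := by
  obtain ⟨f, hf0, hfm, hf⟩ := h
  rw [← hfm]
  have := (hf (n - 1) (by omega)).fc
  have e : n - 1 + 1 = n := by omega
  rwa [e] at this

theorem Reach.fb (h : S.Reach x a b) : S.F x a := by
  obtain ⟨n, hn, h⟩ := h
  exact h.fb hn

theorem Reach.fc (h : S.Reach x a b) : S.F x b := by
  obtain ⟨n, hn, h⟩ := h
  exact h.fc hn

end Sys

end Pool.Agent.H11.ZDE
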