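import Pool.Agent.H11.ZDE.Path

/-!
# Claim XY (reachability rule; acyclicity)
-/

set_option linter.unusedSimpArgs false
set_option linter.unusedVariables false

namespace Pool.Agent.H11.ZDE

open RootLat

variable {L : Type*} [AddCommGroup L] {R : RootLat L}

namespace Sys

variable (S : Sys R) {x : Module.End ℤ L}

/-- the hypothesis of the induction on `x` -/
def IHx (x : Module.End ℤ L) : Prop := ∀ y, S.A y → S.μ y < S.μ x → ∀ b c, S.Reach y b c → S.Good y b c

theorem Good.one {S : Sys R} {x : Module.End ℤ L} {b c : L} (h : S.Arr x b c) : S.Good x b c :=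
  ⟨h.ne, Or.inr (Or.inl ⟨h.q, h⟩)⟩

theorem xy_two (hx : S.A x) {a b c : L} (h1 : S.Arr x a b) (h2 : S.Arr x b c) : S.Good x a c := by
  have hne : a ≠ c := by
    rintro rfl
    exact h1.asymm h2
  refine ⟨hne, ?_⟩
  rcases R.Q_cases' h1.fb.q h2.fc.q h1.fb.p h2.fc.p hne with h | h | h
  · exact (R.no_triangle h1.fb.q h1.fc.q h2.fc.q h1.fb.p h1.fc.p h2.fc.p h1.q h2.q h).elim
  · exact Or.inl h
  · exact Or.inr (Or.inr ⟨h, S.Path2 hx h1 h2 h⟩)

theorem xy_big (hx : S.A x) (IH : S.IHx x) {k : ℕ} {f : ℕ → L}
    (harr : ∀ j < k + 3, S.Arr x (f j) (f (j + 1)))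
    (subG : ∀ i j, i < j → j ≤ k + 3 → (i ≠ 0 ∨ j ≠ k + 3) → S.Good x (f i) (f j))
    (s0 : ∀ j, 2 ≤ j → j < k + 3 → R.Q (f 0) (f j) = 0 ∨ (R.Q (f 0) (f j) = 1 ∧ R.Im x (f 0 - f j)))
    (sn : ∀ j, 1 ≤ j → j < k + 2 → R.Q (f j) (f (k + 3)) = 0 ∨
      (R.Q (f j) (f (k + 3)) = 1 ∧ R.Im x (f j - f (k + 3)))) :
    S.Good x (f 0) (f (k + 3)) := by
  have hF : ∀ j, j ≤ k + 3 → S.F x (f j) := by
    intro j hj
    rcases Nat.eq_or_lt_of_le hj with h | h
    · subst h
      exact (harr (k + 2) (by omega)).fc
    · exact (harr j h).fb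
  have a0 := harr 0 (by omega)
  have al := harr (k + 2) (by omega)
  simp only [zero_add] at a0
  have F0 := hF 0 (by omega)
  have Fn := hF (k + 3) le_rfl
  -- f n ≠ f 0
  have hne : f 0 ≠ f (k + 3) := by
    intro he
    have h1 := subG 0 (k + 2) (by omega) (by omega) (Or.inr (by omega))
    rw [← he] at al
    have h2 : R.Q (f 0) (f (k + 2)) = -1 := by rw [R.Q_comm]; exact al.q
    rcases h1.2 with h3 | h3 | h3
    · omega
    · exact al.asymm h3.2
    · omega
  refine ⟨hne, ?_⟩
  -- the last index `m < n` with `(f 0, f m) ≠ 0`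
  obtain ⟨m, hm1, hmn, hm, hlast⟩ := exists_last (p := fun j => R.Q (f 0) (f j) ≠ 0) (n := k + 3) (by omega)
    (by rw [a0.q]; norm_num)
  have hlast' : ∀ j, m < j → j < k + 3 → R.Q (f 0) (f j) = 0 := fun j h1 h2 => by
    have := hlast j h1 h2
    push Not at this
    exact this
  have hy := S.act hx F0
  have hμ := S.mu _ _ hx F0
  -- either `m = 1` or `f 0 - f m ∈ I`
  have hm' : m = 1 ∨ (2 ≤ m ∧ R.Q (f 0) (f m) = 1 ∧ R.Im x (f 0 - f m)) := by
    rcases Nat.eq_or_lt_of_le hm1 with h | h
    · exact Or.inl h.symm
    · right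
      rcases s0 m h hmn with h' | h'
      · exact absurd h' hm
      · exact ⟨h, h'⟩
  -- membership at y
  have fm_y : S.F (x * R.r (f 0)) (f m) := by
    rcases hm' with h | ⟨h, h1, h2⟩
    · subst h
      exact S.T2 F0 (hF 1 (by omega)) a0.q a0.v
    · have e : Ch2 R (f m) (f 0 - f m) := Ch2.mk' (hF m (by omega)).q h2.q (by
        rw [Q_subr, R.Q_comm (f m) (f 0), h1, (hF m (by omega)).q]; norm_num) (hF m (by omega)).p h2.p
      have e0 : f m + (f 0 - f m) = f 0 := by abel
      have := S.T3 hx e (hF m (by omega)) h2.xn (by rw [e0]; exact F0)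
      rwa [e0] at this
  have fj_y : ∀ j, m ≤ j → j < k + 3 → S.F (x * R.r (f 0)) (f j) := by
    intro j h1 h2
    rcases Nat.eq_or_lt_of_le h1 with h | h
    · subst h; exact fm_y
    · exact S.T1 hx F0 (hF j (by omega)) (hlast' j h h2)
  have arr_y : ∀ j, m ≤ j → j < k + 2 → S.Arr (x * R.r (f 0)) (f j) (f (j + 1)) := by
    intro j h1 h2
    refine S.UT hx (harr j (by omega)) F0 (fj_y j h1 (by omega)) (fj_y (j + 1) (by omega) (by omega)) ?_
    rw [hlast' (j + 1) (by omega) (by omega)]
    rcases Nat.eq_or_lt_of_le h1 with h | h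
    · subst h
      rcases hm' with h | ⟨h, h3, h4⟩
      · subst h
        rw [a0.q]
        refine R.P_cast (R.P_add F0.p (hF 1 (by omega)).p) ?_
        module
      · rw [h3]
        refine R.P_cast h4.p ?_
        module
    · rw [hlast' j h (by omega)]
      refine R.P_cast F0.p ?_
      module
  -- reaching a target at y
  have reach : ∀ t, S.Arr (x * R.r (f 0)) (f (k + 2)) t → S.Good (x * R.r (f 0)) (f m) t := by
    intro t ht
    exact IH _ hy hμ _ _ (reach_last (n := k + 2) (fun j h1 h2 => arr_y j h1 h2) (by omega) ht)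
  rcases R.Q_cases' F0.q Fn.q F0.p Fn.p hne with hq | hq | hq
  · -- (f0, fn) = -1
    right; left
    refine ⟨hq, ?_⟩
    by_cases hv : S.V (x * R.r (f (k + 3)) * R.r (f 0))
    swap
    · refine ⟨F0, Fn, hq, ?_, hv⟩
      rcases S.ruleM _ _ _ hx F0 Fn hq with h | h
      · exact h
      · exact absurd h hv
    exfalso
    have hq' : R.Q (f (k + 3)) (f 0) = -1 := by rw [R.Q_comm]; exact hq
    have e0n := S.ch2 Fn F0 hq'
    rcases Nat.lt_or_ge m (k + 2) with hlt | hge
    · -- m < n - 1
      have h0 : R.Q (f (k + 2)) (f 0) = 0 := by rw [R.Q_comm]; exact hlast' _ hlt (by omega)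
      have hT : S.Arr (x * R.r (f 0)) (f (k + 2)) (f (k + 3) + f 0) := S.UT7 hx al F0 h0 hq' hv
      have G := reach _ hT
      have Gm := subG m (k + 3) (by omega) le_rfl (Or.inl (by omega))
      have sm := sn m hm1 (by omega)
      rcases hm' with h | ⟨h, h3, h4⟩
      · subst h
        rcases sm with ht | ⟨ht, hti⟩
        · -- t = 0
          have hqq : R.Q (f 1) (f (k + 3) + f 0) = -1 := by
            rw [Q_addr, ht, R.Q_comm (f 1), a0.q]; norm_num
          have hA : S.Arr (x * R.r (f 0)) (f 1) (f (k + 3) + f 0) := by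
            rcases G.2 with h | h | h
            · omega
            · exact h.2
            · omega
          refine hA.nv ?_
          have := S.E3 hx a0 Fn ht hq' hv
          have e : x * R.r (f (k + 3)) * R.r (f 0) = x * R.r (f 0) * R.r (f (k + 3) + f 0) := by (refine LinearMap.ext fun v => ?_; simp only [Module.End.mul_apply, Module.End.one_apply, RootLat.r_apply, RootLat.Q_sub, RootLat.Q_smul, RootLat.Q_subr, RootLat.Q_smulr, RootLat.Q_add, RootLat.Q_addr, RootLat.Q_neg, RootLat.Q_negr, Ch2.aa e0n, Ch2.bb e0n, Ch2.ab e0n, Ch2.ba e0n, map_add, map_sub, map_neg, map_zsmul]; try module)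
          rwa [e] at this
        · -- t = 1
          have e1 : f 1 = f (k + 3) + (f 1 - f (k + 3)) := by abel
          have a0' := a0
          rw [e1] at a0'
          refine S.H2 hx a0' Fn hti ?_ hv
          rw [Q_sub, R.Q_comm (f 1), a0.q, hq']; norm_num
      · rcases sm with ht | ⟨ht, hti⟩
        · have hqq : R.Q (f m) (f (k + 3) + f 0) = 1 := by
            rw [Q_addr, ht, R.Q_comm (f m), h3]; norm_num
          rcases G.2 with h5 | h5 | h5
          · omega
          · omega
          · have := h5.2.p
            have p2 := R.P_add h4.p Fn.p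
            refine R.P_neg p2 (R.P_cast this ?_)
            abel
        · have hqq : R.Q (f m) (f (k + 3) + f 0) = 2 := by
            rw [Q_addr, ht, R.Q_comm (f m), h3]; norm_num
          rcases G.2 with h5 | h5 | h5
          · omega
          · omega
          · omega
    · -- m = n - 1
      have hme : m = k + 2 := by omega
      subst hme
      rcases hm' with h | ⟨h, h3, h4⟩
      · omega
      · have e0 : f 0 = f (k + 2) + (f 0 - f (k + 2)) := by abel
        have := S.H1 hx al h4 (by rw [← e0]; exact F0) (by rw [Q_sub, hq, al.q]; norm_num)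
        rw [← e0] at this
        exact this hv
  · exact Or.inl hq
  · -- (f0, fn) = 1
    right; right
    refine ⟨hq, ?_⟩
    have hroot : R.Q (f 0 - f (k + 3)) (f 0 - f (k + 3)) = 2 := by
      rw [Q_sub, Q_subr, Q_subr, F0.q, Fn.q, hq, R.Q_comm (f (k + 3)), hq]; norm_num
    rcases R.P_root _ hroot with hp | hp
    swap
    · -- (e1): f n = f 0 + g
      exfalso
      obtain ⟨g, hg⟩ : ∃ g, f (k + 3) = f 0 + g := ⟨f (k + 3) - f 0, by abel⟩
      have hgp : R.P g := R.P_cast hp (by rw [hg]; abel)
      have hgq : R.Q g g = 2 := by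
        have e : f 0 - f (k + 3) = -g := by rw [hg]; abel
        rw [e, Q_neg, Q_negr, neg_neg] at hroot
        exact hroot
      have h0g : R.Q (f 0) g = -1 := by
        rw [hg, Q_addr, F0.q] at hq
        linarith
      have e0g : Ch2 R (f 0) g := Ch2.mk' F0.q hgq h0g F0.p hgp
      rcases Nat.lt_or_ge m (k + 2) with hlt | hge
      · have h0 : R.Q (f (k + 2)) (f 0) = 0 := by rw [R.Q_comm]; exact hlast' _ hlt (by omega)
        have al' := al
        rw [show f (k + 2 + 1) = f 0 + g from hg] at al'
        have hT := S.T89 hx al' F0 h0 hgq hgp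
        have G := reach _ hT
        have sm := sn m hm1 (by omega)
        have hmn' : R.Q (f m) (f (k + 3)) = R.Q (f m) (f 0) + R.Q (f m) g := by rw [hg, Q_addr]
        rcases hm' with h | ⟨h, h3, h4⟩
        · subst h
          rw [R.Q_comm (f 1) (f 0), a0.q] at hmn'
          rcases sm with ht | ⟨ht, hti⟩
          · have hqq : R.Q (f 1) g = 1 := by linarith
            have hI : R.Im (x * R.r (f 0)) (f 1 - g) := by
              rcases G.2 with h5 | h5 | h5
              · omega
              · omega
              · exact h5.2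
            have hoi : R.Q (f 1 - g) (f 0) = 0 := by
              rw [Q_sub, R.Q_comm (f 1), a0.q, R.Q_comm g, h0g]; norm_num
            have hIx : R.Im x (f 1 - g) := ⟨hI.q, hI.p, R.P_cast hI.xn (by
              simp only [Module.End.mul_apply, r_apply, hoi]
              simp)⟩
            have e1 : f 1 = g + (f 1 - g) := by abel
            rcases S.sgn (S.AV x hx) hgq with hs | hs
            · have hgF : S.F x g := S.low' e0g F0.xp hs (by rw [← hg]; exact Fn)
              have a0' := a0
              rw [e1] at a0'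
              refine S.H2 hx a0' hgF hIx hoi ?_
              exact S.Vcb e0g F0.xp (by rw [← hg]; exact Fn)
            · have := R.P_add hs hIx.xn
              refine R.P_neg (hF 1 (by omega)).xp (R.P_cast this ?_)
              rw [map_sub]; abel
          · have hqq : R.Q (f 1) g = 2 := by linarith
            rcases G.2 with h5 | h5 | h5 <;> omega
        · rw [R.Q_comm (f m) (f 0), h3] at hmn'
          rcases sm with ht | ⟨ht, hti⟩
          · have hqq : R.Q (f m) g = -1 := by linarith
            have hA : S.Arr (x * R.r (f 0)) (f m) g := by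
              rcases G.2 with h5 | h5 | h5
              · omega
              · exact h5.2
              · omega
            refine hA.nv ?_
            have e0 : f m + (f 0 - f m) = f 0 := by abel
            have := S.E56 hx (hF m (by omega)) h4 (by rw [e0]; exact F0) hgq hgp (by rw [e0, ← hg]; exact Fn)
              (by rw [e0, ← hg]; exact ht)
            rwa [e0] at this
          · -- t = 1 : f 0 = f n + i'' + i
            have p2 := R.P_add (R.P_add hti.p h4.p) hgp
            refine R.P_zero (R.P_cast p2 ?_)
            rw [hg]; abel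
      · have hme : m = k + 2 := by omega
        subst hme
        rcases hm' with h | ⟨h, h3, h4⟩
        · omega
        · have h5 := al.q
          rw [show f (k + 2 + 1) = f 0 + g from hg, Q_addr, R.Q_comm (f (k + 2)) (f 0), h3] at h5
          have h6 : R.Q (f (k + 2)) g = -2 := by linarith
          have h7 := R.eq_neg_of (hF (k + 2) (by omega)).q hgq h6
          exact R.P_neg hgp (R.P_cast (hF (k + 2) (by omega)).p h7.symm)
    · -- (e2): f 0 = f n + g
      refine ⟨hroot, hp, ?_⟩
      rcases S.sgn (S.AV x hx) hroot with hs | hs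
      swap
      · exact hs
      exfalso
      obtain ⟨g, hg⟩ : ∃ g, f 0 = f (k + 3) + g := ⟨f 0 - f (k + 3), by abel⟩
      have hge : f 0 - f (k + 3) = g := by rw [hg]; abel
      rw [hge] at hroot hp hs
      have hng : R.Q (f (k + 3)) g = -1 := by
        rw [hg, Q_add, Fn.q, R.Q_comm g] at hq
        linarith
      have eng : Ch2 R (f (k + 3)) g := Ch2.mk' Fn.q hroot hng Fn.p hp
      have Fg : S.F x g := S.low' eng Fn.xp hs (by rw [← hg]; exact F0)
      have hyn := S.act hx Fn
      have hμn := S.mu _ _ hx Fn
      obtain ⟨m', hm1', hmn', hmq, hfirst⟩ := exists_first (p := fun j => R.Q (f j) (f (k + 3)) ≠ 0) (n := k + 2)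
        (by omega) (by rw [al.q]; norm_num)
      have hfirst' : ∀ j, 1 ≤ j → j < m' → R.Q (f j) (f (k + 3)) = 0 := fun j h1 h2 => by
        have := hfirst j h1 h2
        push Not at this
        exact this
      -- the path f 0 → f 1 → … → f (m'-1) at y
      have arr' : ∀ j, 0 ≤ j → j + 1 < m' → S.Arr (x * R.r (f (k + 3))) (f j) (f (j + 1)) := by
        intro j _ h2
        rcases Nat.eq_zero_or_pos j with h | h
        · subst h
          have a0' := a0
          rw [hg] at a0'
          have := S.T9' hx a0' Fn Fg hng (hfirst' 1 le_rfl (by omega))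
          rw [← hg] at this
          exact this
        · have q1 : R.Q (f (k + 3)) (f j) = 0 := by rw [R.Q_comm]; exact hfirst' j h (by omega)
          have q2 : R.Q (f (k + 3)) (f (j + 1)) = 0 := by rw [R.Q_comm]; exact hfirst' (j + 1) (by omega) (by omega)
          refine S.UT hx (harr j (by omega)) Fn (S.T1 hx Fn (hF j (by omega)) q1)
            (S.T1 hx Fn (hF (j + 1) (by omega)) q2) ?_
          rw [q1, q2]
          refine R.P_cast Fn.p ?_
          module
      rcases Nat.lt_or_ge m' (k + 2) with hlt | hge'
      · -- f m' = f n + i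
        rcases sn m' hm1' hlt with h | ⟨h1, hi⟩
        · exact absurd h hmq
        obtain ⟨i, hie⟩ : ∃ i, f m' = f (k + 3) + i := ⟨f m' - f (k + 3), by abel⟩
        have hii : f m' - f (k + 3) = i := by rw [hie]; abel
        rw [hii] at hi
        have hqi : R.Q (f (k + 3)) i = -1 := by
          rw [hie, Q_add, Fn.q, R.Q_comm i] at h1
          linarith
        rcases Nat.eq_or_lt_of_le hm1' with h | h
        · -- m' = 1
          rw [← h] at hie
          have h2 := a0.q
          have h3 : R.Q (f 0) i = -2 := by
            rw [hie, Q_addr, hq] at h2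
            linarith
          have h7 := R.eq_neg_of F0.q hi.q h3
          exact R.P_neg hi.p (R.P_cast F0.p h7.symm)
        · obtain ⟨p, rfl⟩ : ∃ p, m' = p + 2 := ⟨m' - 2, by omega⟩
          have apm := harr (p + 1) (by omega)
          rw [show f (p + 1 + 1) = f (k + 3) + i from hie] at apm
          have hT := S.T89 hx apm Fn (hfirst' (p + 1) (by omega) (by omega)) hi.q hi.p
          have G := IH _ hyn hμn _ _ (reach_last (m := 0) (n := p + 1) (fun j h1 h2 => arr' j h1 (by omega))
            (by omega) hT)
          have h0i : R.Q (f 0) i = R.Q (f 0) (f (p + 2)) - 1 := by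
            rw [hie, Q_addr, hq]; ring
          rcases s0 (p + 2) (by omega) (by omega) with h5 | ⟨h5, h6⟩
          · rw [h5] at h0i
            have hA : S.Arr (x * R.r (f (k + 3))) (f 0) i := by
              rcases G.2 with h7 | h7 | h7
              · omega
              · exact h7.2
              · omega
            refine hA.nv ?_
            have := S.E6 hx Fn hroot hi (by rw [← hg]; exact F0) (by rw [← hie]; exact hF _ (by omega)) hp hs
              (by rw [← hg, ← hie]; exact h5)
            rw [← hg] at this
            exact this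
          · have := R.P_add h6.xn hi.xn
            refine R.P_neg hs (R.P_cast this ?_)
            rw [← map_neg, ← map_neg, ← map_neg, ← map_add]
            congr 1
            rw [hie, hg]; abel
      · -- m' = n - 1
        have hme : m' = k + 2 := by omega
        subst hme
        have q0 : R.Q (f (k + 1)) (f (k + 3)) = 0 := hfirst' (k + 1) (by omega) (by omega)
        have hT := S.UT7 hx (harr (k + 1) (by omega)) Fn q0 al.q al.v
        have G := IH _ hyn hμn _ _ (reach_last (m := 0) (n := k + 1) (fun j h1 h2 => arr' j h1 (by omega))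
            (by omega) hT)
        have hgood := G
        have h0h : R.Q (f 0) (f (k + 1 + 1) + f (k + 3)) = R.Q (f 0) (f (k + 2)) + 1 := by
          rw [Q_addr, hq]
        rcases s0 (k + 2) (by omega) (by omega) with h5 | ⟨h5, h6⟩
        · rw [h5] at h0h
          have hI : R.Im (x * R.r (f (k + 3))) (f 0 - (f (k + 1 + 1) + f (k + 3))) := by
            rcases G.2 with h7 | h7 | h7
            · omega
            · omega
            · exact h7.2
          have e1 : f 0 - (f (k + 1 + 1) + f (k + 3)) = g - f (k + 2) := by rw [hg]; abel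
          rw [e1] at hI
          have hoi : R.Q (g - f (k + 2)) (f (k + 3)) = 0 := by
            rw [Q_sub, R.Q_comm g, hng]
            have := al.q
            rw [show f (k + 2 + 1) = f (k + 3) from rfl] at this
            rw [this]; norm_num
          have hIx : R.Im x (g - f (k + 2)) := ⟨hI.q, hI.p, R.P_cast hI.xn (by
              simp only [Module.End.mul_apply, r_apply, hoi]
              simp)⟩
          -- g = f (n-1) + i', H1
          have e2 : f (k + 2) + (g - f (k + 2)) = g := by abel
          have := S.H1 hx al hIx (by rw [e2]; exact Fg) hoi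
          rw [e2] at this
          exact this (S.Vbc eng Fg.xp (by rw [← hg]; exact F0))
        · rw [h5] at h0h
          rcases G.2 with h7 | h7 | h7 <;> omega

theorem xy_step (hx : S.A x) (IH : S.IHx x) : ∀ n, 0 < n → ∀ b c, S.Pth x n b c → S.Good x b c := by
  intro n
  induction n using Nat.strong_induction_on with
  | _ n ih =>
    intro hn b c hp
    obtain ⟨f, hf0, hfn, hf⟩ := hp
    subst hf0 hfn
    rcases (by omega : n = 1 ∨ n = 2 ∨ 3 ≤ n) with h | h | h
    · subst h
      exact Good.one (hf 0 (by omega))
    · subst h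
      exact S.xy_two hx (hf 0 (by omega)) (hf 1 (by omega))
    · obtain ⟨k, rfl⟩ : ∃ k, n = k + 3 := ⟨n - 3, by omega⟩
      have subG : ∀ i j, i < j → j ≤ k + 3 → (i ≠ 0 ∨ j ≠ k + 3) → S.Good x (f i) (f j) := by
        intro i j h1 h2 h3
        exact ih (j - i) (by omega) (by omega) _ _ (Pth.sub hf h1.le h2)
      by_cases h0 : ∃ j, 2 ≤ j ∧ j < k + 3 ∧ R.Q (f 0) (f j) = -1
      · obtain ⟨j, h1, h2, h3⟩ := h0
        have hA : S.Arr x (f 0) (f j) := by
          rcases (subG 0 j (by omega) (by omega) (Or.inr (by omega))).2 with h4 | h4 | h4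
          · omega
          · exact h4.2
          · omega
        exact ih (1 + (k + 3 - j)) (by omega) (by omega) _ _ ((Pth.one hA).trans (Pth.sub hf h2.le le_rfl))
      by_cases h0' : ∃ j, 1 ≤ j ∧ j < k + 2 ∧ R.Q (f j) (f (k + 3)) = -1
      · obtain ⟨j, h1, h2, h3⟩ := h0'
        have hA : S.Arr x (f j) (f (k + 3)) := by
          rcases (subG j (k + 3) (by omega) (by omega) (Or.inl (by omega))).2 with h4 | h4 | h4
          · omega
          · exact h4.2
          · omega
        exact ih (j - 0 + 1) (by omega) (by omega) _ _ ((Pth.sub hf (by omega) (by omega)).trans (Pth.one hA))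
      refine S.xy_big hx IH hf subG ?_ ?_
      · intro j h1 h2
        rcases (subG 0 j (by omega) (by omega) (Or.inr (by omega))).2 with h4 | h4 | h4
        · exact Or.inl h4
        · exact absurd ⟨j, h1, h2, h4.1⟩ h0
        · exact Or.inr h4
      · intro j h1 h2
        rcases (subG j (k + 3) (by omega) (by omega) (Or.inl (by omega))).2 with h4 | h4 | h4
        · exact Or.inl h4
        · exact absurd ⟨j, h1, h2, h4.1⟩ h0'
        · exact Or.inr h4

/-- claim XY -/
theorem xy_stmt : XYStmt S := by
  intro x
  induction hμ : S.μ x using Nat.strong_induction_on generalizing x with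
  | _ N ih =>
    intro hx b c h
    obtain ⟨n, hn, h⟩ := h
    refine S.xy_step hx ?_ n hn b c h
    intro y hy hlt b' c' h'
    exact ih (S.μ y) (by omega) y rfl hy b' c' h'

end Sys

end Pool.Agent.H11.ZDE
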